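import Mathlib

set_option autoImplicit false

/-!
The dictionary between pairs of colours (elements of the group of order eight) and vectors
`(x, t)` of the six-dimensional space over the field with two elements with `x · t = 1`.
-/

namespace Pool.Agent.H126R2.CDC

abbrev T3 := Bool × Bool × Bool

def T3.add (x y : T3) : T3 := (xor x.1 y.1, xor x.2.1 y.2.1, xor x.2.2 y.2.2)

/-- the quadratic map -/
def lam (p : T3) : T3 :=
  (xor p.1 (p.2.1 && p.2.2), xor (xor p.2.1 p.1) (p.1 && p.2.2),
    xor (xor p.2.2 (xor p.1 p.2.1)) (p.1 && p.2.1))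

/-- the colour `c` belongs to the pair with label `(x, t)` -/
def inS (c x t : T3) : Bool := decide (T3.add (lam c) (lam (T3.add c x)) = t)

def dot (x t : T3) : Bool := xor (xor (x.1 && t.1) (x.2.1 && t.2.1)) (x.2.2 && t.2.2)

theorem card_inS : ∀ x t : T3, dot x t = true →
    (Finset.univ.filter (fun c : T3 => inS c x t = true)).card = 2 := by
  decide +kernel

theorem tri_inS : ∀ x1 t1 x2 t2 c : T3,
    (dot x1 t1 && dot x2 t2 && dot (T3.add x1 x2) (T3.add t1 t2)) = true →
    xor (xor (inS c x1 t1) (inS c x2 t2)) (inS c (T3.add x1 x2) (T3.add t1 t2)) = false := by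
  decide +kernel

end Pool.Agent.H126R2.CDC
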