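import Pool.Agent.H44.L.H126R2_CDC_Lift
import Pool.Agent.H44.L.H126R2_CDC_Flow8
import Pool.Agent.H44.L.H126R2_CDC_Tab

set_option autoImplicit false
set_option linter.unusedSectionVars false

/-!
Every graph with a nowhere-zero flow over the group of order eight has eight even edge sets
covering every edge exactly twice.
-/

namespace Pool.Agent.H126R2.CDC

open Finset
open Pool.Agent.Helper879.ECD (F2 IsFlow f2_add_self f2_cases cn)

section

variable {W E : Type} [Fintype W] [DecidableEq W] [Fintype E] [DecidableEq E]

/-- flow condition at every vertex, in terms of half-edges -/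
def IsFl (v : E × Bool → W) (g : E → F2) : Prop :=
  ∀ w, ∑ h : E × Bool, (if v h = w then g h.1 else 0) = 0

lemma isFl_iff (v : E × Bool → W) (g : E → F2) :
    IsFl v g ↔ IsFlow (fun e => v (e, false)) (fun e => v (e, true)) g := by
  constructor
  · intro h c
    have h1 : ∀ w ∈ (univ : Finset W), c w * ∑ h : E × Bool, (if v h = w then g h.1 else 0) = 0 :=
      fun w _ => by rw [h w, mul_zero]
    have h2 := Finset.sum_congr rfl h1
    simp only [Finset.mul_sum] at h2
    rw [Finset.sum_comm, Finset.sum_const_zero, Fintype.sum_prod_type] at h2
    rw [← h2]
    apply Finset.sum_congr rfl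
    intro e _
    rw [Fintype.sum_bool]
    simp only [mul_ite, mul_zero, Finset.sum_ite_eq, Finset.mem_univ, if_true]
    ring
  · intro h w
    have h1 := h (fun u => if u = w then 1 else 0)
    rw [Fintype.sum_prod_type]
    refine Eq.trans ?_ h1
    apply Finset.sum_congr rfl
    intro e _
    rw [Fintype.sum_bool]
    simp only [mul_add, mul_ite, mul_one, mul_zero]
    ring

/-- the boolean of an element of the field with two elements -/
def toB (x : F2) : Bool := decide (x ≠ 0)

lemma toB_add : ∀ x y : F2, toB (x + y) = xor (toB x) (toB y) := by decide

lemma toB_dot : ∀ a1 a2 a3 b1 b2 b3 : F2, a1 * b1 + a2 * b2 + a3 * b3 = 1 →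
    dot (toB a1, toB a2, toB a3) (toB b1, toB b2, toB b3) = true := by decide +kernel

/-- the label of an edge -/
def lab (A : Fin 3 → E → F2) (e : E) : T3 := (toB (A 0 e), toB (A 1 e), toB (A 2 e))

lemma lab_add (A : Fin 3 → E → F2) (e f g : E) (h : ∀ i, A i e = A i f + A i g) :
    lab A e = T3.add (lab A f) (lab A g) := by
  unfold lab T3.add
  rw [h 0, h 1, h 2, toB_add, toB_add, toB_add]

lemma lab_congr (A : Fin 3 → E → F2) (e f : E) (h : ∀ i, A i e = A i f) :
    lab A e = lab A f := by
  unfold lab
  rw [h 0, h 1, h 2]

lemma f2_eq_of_add {x y : F2} (h : x + y = 0) : x = y := by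
  revert x y; decide

lemma f2_eq_of_add3 {x y z : F2} (h : x + (y + z) = 0) : z = x + y := by
  revert x y z; decide

lemma xor3 : ∀ p q r : Bool, xor (xor p q) r = false →
    ((if p = true then 1 else 0 : F2) + ((if q = true then 1 else 0) +
      (if r = true then 1 else 0))) = 0 := by decide

/-- the colouring when all degrees are at most three -/
theorem low_deg (v : E × Bool → W) (hdeg : ∀ w, (univ.filter (fun h => v h = w)).card ≤ 3)
    (A : Fin 3 → E → F2) (hA : ∀ i, IsFl v (A i))
    (hnz : ∀ e, A 0 e ≠ 0 ∨ A 1 e ≠ 0 ∨ A 2 e ≠ 0) :
    ∃ S : E → Finset T3, (∀ e, (S e).card = 2) ∧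
      ∀ c, IsFl v (fun e => if c ∈ S e then 1 else 0) := by
  obtain ⟨B, hB, hAB⟩ := lift (fun e => v (e, false)) (fun e => v (e, true)) A
    (fun i => (isFl_iff v (A i)).1 (hA i)) hnz
  have hB' : ∀ i, IsFl v (B i) := fun i => (isFl_iff v (B i)).2 (hB i)
  have hdot : ∀ e, dot (lab A e) (lab B e) = true := fun e => toB_dot _ _ _ _ _ _ (hAB e)
  refine ⟨fun e => univ.filter (fun c : T3 => inS c (lab A e) (lab B e) = true), ?_, ?_⟩
  · intro e
    exact card_inS _ _ (hdot e)
  · intro c w
    have hgoal : ∀ g : E → F2, ∑ h : E × Bool, (if v h = w then g h.1 else 0) =
        ∑ h ∈ univ.filter (fun h => v h = w), g h.1 := by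
      intro g; rw [Finset.sum_filter]
    have hA2 : ∀ i, ∑ h ∈ univ.filter (fun h => v h = w), A i h.1 = 0 := by
      intro i; rw [← hgoal]; exact hA i w
    have hB2 : ∀ i, ∑ h ∈ univ.filter (fun h => v h = w), B i h.1 = 0 := by
      intro i; rw [← hgoal]; exact hB' i w
    simp only [Finset.mem_filter, Finset.mem_univ, true_and]
    rw [hgoal (fun e => if inS c (lab A e) (lab B e) = true then 1 else 0)]
    have hd := hdeg w
    generalize univ.filter (fun h => v h = w) = H at *
    have hcases : H.card = 0 ∨ H.card = 1 ∨ H.card = 2 ∨ H.card = 3 := by omega
    rcases hcases with h0 | h0 | h0 | h0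
    · rw [Finset.card_eq_zero.1 h0, Finset.sum_empty]
    · obtain ⟨x, rfl⟩ := Finset.card_eq_one.1 h0
      exfalso
      simp only [Finset.sum_singleton] at hA2
      rcases hnz x.1 with h | h | h
      · exact h (hA2 0)
      · exact h (hA2 1)
      · exact h (hA2 2)
    · obtain ⟨x, y, hxy, rfl⟩ := Finset.card_eq_two.1 h0
      rw [Finset.sum_pair hxy]
      have h1 : lab A x.1 = lab A y.1 := lab_congr A _ _ (fun i => by
        have := hA2 i
        rw [Finset.sum_pair hxy] at this
        exact f2_eq_of_add this)
      have h2 : lab B x.1 = lab B y.1 := lab_congr B _ _ (fun i => by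
        have := hB2 i
        rw [Finset.sum_pair hxy] at this
        exact f2_eq_of_add this)
      rw [h1, h2]
      exact f2_add_self _
    · obtain ⟨x, y, z, hxy, hxz, hyz, rfl⟩ := Finset.card_eq_three.1 h0
      have hs : ∀ g : E × Bool → F2, ∑ h ∈ ({x, y, z} : Finset (E × Bool)), g h =
          g x + (g y + g z) := by
        intro g
        rw [Finset.sum_insert (by simp [hxy, hxz]), Finset.sum_pair hyz]
      rw [hs]
      have h1 : lab A z.1 = T3.add (lab A x.1) (lab A y.1) := lab_add A _ _ _ (fun i => by
        have := hA2 i
        rw [hs] at this
        exact f2_eq_of_add3 this)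
      have h2 : lab B z.1 = T3.add (lab B x.1) (lab B y.1) := lab_add B _ _ _ (fun i => by
        have := hB2 i
        rw [hs] at this
        exact f2_eq_of_add3 this)
      apply xor3
      rw [h1, h2]
      apply tri_inS
      rw [hdot x.1, hdot y.1, ← h1, ← h2, hdot z.1]
      rfl

end

/-- the degree excess -/
def excess {W E : Type} [Fintype W] [DecidableEq W] [Fintype E] [DecidableEq E]
    (v : E × Bool → W) : ℕ := ∑ w, ((univ.filter (fun h => v h = w)).card - 3)

/-- the colouring for all graphs with a nowhere-zero flow -/
theorem cover_of_flow : ∀ (n : ℕ) (W E : Type) [Fintype W] [DecidableEq W] [Fintype E]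
    [DecidableEq E] (v : E × Bool → W) (A : Fin 3 → E → F2), (∀ i, IsFl v (A i)) →
    (∀ e, A 0 e ≠ 0 ∨ A 1 e ≠ 0 ∨ A 2 e ≠ 0) → excess v = n →
    ∃ S : E → Finset T3, (∀ e, (S e).card = 2) ∧
      ∀ c, IsFl v (fun e => if c ∈ S e then 1 else 0) := by
  intro n
  induction n using Nat.strong_induction_on with
  | _ n ih =>
  intro W E _ _ _ _ v A hA hnz hn
  by_cases hdeg : ∀ w, (univ.filter (fun h => v h = w)).card ≤ 3
  · exact low_deg v hdeg A hA hnz
  push Not at hdeg
  obtain ⟨w0, hw0⟩ := hdeg
  set H := univ.filter (fun h => v h = w0) with hH
  by_cases hcase : ∃ h1 ∈ H, ∃ h2 ∈ H, ∃ i, A i h1.1 ≠ A i h2.1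
  · -- two half-edges with different values: detach them to a new vertex joined to the old one
    obtain ⟨h1, hh1, h2, hh2, i0, hi0⟩ := hcase
    have hv1 : v h1 = w0 := (Finset.mem_filter.1 hh1).2
    have hv2 : v h2 = w0 := (Finset.mem_filter.1 hh2).2
    have hne : h1 ≠ h2 := by rintro rfl; exact hi0 rfl
    let v' : Option E × Bool → Option W := fun h =>
      match h with
      | (some e, s) => if (e, s) = h1 ∨ (e, s) = h2 then none else some (v (e, s))
      | (none, false) => none
      | (none, true) => some w0
    let A' : Fin 3 → Option E → F2 := fun i e =>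
      match e with
      | some e => A i e
      | none => A i h1.1 + A i h2.1
    -- sums of functions over the half-edges at the vertices of the new graph
    have hsum_none : ∀ g : Option E → F2,
        ∑ h : Option E × Bool, (if v' h = none then g h.1 else 0) =
          g none + (g (some h1.1) + g (some h2.1)) := by
      intro g
      rw [Fintype.sum_prod_type, Fintype.sum_option]
      congr 1
      · rw [Fintype.sum_bool]
        simp [v']
      · have h3 : ∀ e ∈ (univ : Finset E), ∑ s : Bool, (if v' (some e, s) = none then g (some e)
            else 0) = ∑ s : Bool, ((if (e, s) = h1 then g (some h1.1) else 0) +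
              (if (e, s) = h2 then g (some h2.1) else 0)) := by
          intro e _
          apply Finset.sum_congr rfl
          intro s _
          by_cases c1 : (e, s) = h1
          · have c2 : (e, s) ≠ h2 := fun c2 => hne (c1.symm.trans c2)
            have c3 : e = h1.1 := by rw [← c1]
            simp only [v', c1, hne, true_or, if_true, if_false, add_zero]
            rw [c3]
          · by_cases c2 : (e, s) = h2
            · have c3 : e = h2.1 := by rw [← c2]
              simp only [v', c2, or_true, if_true, Ne.symm hne, if_false, zero_add]
              rw [c3]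
            · simp [v', c1, c2]
        rw [Finset.sum_congr rfl h3]
        rw [← Fintype.sum_prod_type (f := fun p : E × Bool =>
          ((if p = h1 then g (some h1.1) else 0) + (if p = h2 then g (some h2.1) else 0)))]
        rw [Finset.sum_add_distrib]
        simp
    have hsum_some : ∀ (g : Option E → F2) (w : W),
        ∑ h : Option E × Bool, (if v' h = some w then g h.1 else 0) =
          ∑ h : E × Bool, (if v h = w then g (some h.1) else 0) +
          (if w = w0 then g none + (g (some h1.1) + g (some h2.1)) else 0) := by
      intro g w
      rw [Fintype.sum_prod_type, Fintype.sum_option]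
      have h3 : ∀ e ∈ (univ : Finset E), ∑ s : Bool, (if v' (some e, s) = some w
          then g (some e) else 0) = ∑ s : Bool, ((if v (e, s) = w then g (some e) else 0) +
            ((if (e, s) = h1 then (if w = w0 then g (some h1.1) else 0) else 0) +
              (if (e, s) = h2 then (if w = w0 then g (some h2.1) else 0) else 0))) := by
        intro e _
        apply Finset.sum_congr rfl
        intro s _
        by_cases c1 : (e, s) = h1
        · have c2 : (e, s) ≠ h2 := fun c2 => hne (c1.symm.trans c2)
          have c3 : e = h1.1 := by rw [← c1]
          simp only [v', c1, hne, true_or, if_true, if_false, add_zero, hv1]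
          rw [c3]
          by_cases c4 : w = w0
          · rw [if_pos c4, if_pos c4.symm]
            simp [f2_add_self]
          · rw [if_neg c4, if_neg (Ne.symm c4)]
            simp
        · by_cases c2 : (e, s) = h2
          · have c3 : e = h2.1 := by rw [← c2]
            simp only [v', c2, or_true, if_true, Ne.symm hne, if_false, zero_add, hv2]
            rw [c3]
            by_cases c4 : w = w0
            · rw [if_pos c4, if_pos c4.symm]
              simp [f2_add_self]
            · rw [if_neg c4, if_neg (Ne.symm c4)]
              simp
          · simp [v', c1, c2]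
      rw [Finset.sum_congr rfl h3]
      rw [← Fintype.sum_prod_type (f := fun p : E × Bool =>
        ((if v p = w then g (some p.1) else 0) +
            ((if p = h1 then (if w = w0 then g (some h1.1) else 0) else 0) +
              (if p = h2 then (if w = w0 then g (some h2.1) else 0) else 0))))]
      rw [Finset.sum_add_distrib, Finset.sum_add_distrib, Fintype.sum_bool]
      by_cases c4 : w = w0
      · simp only [v', c4, if_true]
        simp
        ring
      · have c5 : ¬ (some w0 = some w) := fun h => c4 (Option.some.inj h).symm
        simp [v', c4, Ne.symm c4]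
    have hA' : ∀ i, IsFl v' (A' i) := by
      intro i w
      cases w with
      | none =>
        rw [hsum_none]
        exact f2_add_self _
      | some w =>
        rw [hsum_some]
        have h3 := hA i w
        have h4 : ∑ h : E × Bool, (if v h = w then A' i (some h.1) else 0) = 0 := h3
        rw [h4]
        have h5 : A' i none + (A' i (some h1.1) + A' i (some h2.1)) = 0 := f2_add_self _
        rw [h5]
        simp
    have hnz' : ∀ e, A' 0 e ≠ 0 ∨ A' 1 e ≠ 0 ∨ A' 2 e ≠ 0 := by
      intro e
      cases e with
      | some e => exact hnz e
      | none =>
        have h3 : A' i0 none ≠ 0 := fun h => hi0 (f2_eq_of_add h)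
        fin_cases i0
        · exact Or.inl h3
        · exact Or.inr (Or.inl h3)
        · exact Or.inr (Or.inr h3)
    -- degrees in the new graph
    have hdeg_none : (univ.filter (fun h => v' h = none)).card ≤ 3 := by
      have : univ.filter (fun h => v' h = none) ⊆
          ({(none, false), (some h1.1, h1.2), (some h2.1, h2.2)} : Finset (Option E × Bool)) := by
        rintro ⟨e, s⟩ he
        rw [Finset.mem_filter] at he
        cases e with
        | none =>
          cases s
          · simp
          · exact absurd he.2 (by simp [v'])
        | some e =>
          have h3 := he.2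
          simp only [v'] at h3
          split_ifs at h3 with h4
          rcases h4 with h4 | h4
          · simp [← h4]
          · simp [← h4]
      refine (Finset.card_le_card this).trans ?_
      exact Finset.card_le_three
    have hdeg_some : ∀ w, w ≠ w0 → (univ.filter (fun h => v' h = some w)).card ≤
        (univ.filter (fun h => v h = w)).card := by
      intro w hw
      have : univ.filter (fun h => v' h = some w) ⊆
          (univ.filter (fun h => v h = w)).image (fun h => (some h.1, h.2)) := by
        rintro ⟨e, s⟩ he
        rw [Finset.mem_filter] at he
        cases e with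
        | none =>
          cases s
          · exact absurd he.2 (by simp [v'])
          · exact absurd he.2 (by simp only [v']; intro h; exact hw (Option.some.inj h).symm)
        | some e =>
          have h3 := he.2
          simp only [v'] at h3
          split_ifs at h3 with h4
          rw [Finset.mem_image]
          exact ⟨(e, s), by rw [Finset.mem_filter]; exact ⟨Finset.mem_univ _, Option.some.inj h3⟩, rfl⟩
      exact (Finset.card_le_card this).trans Finset.card_image_le
    have hdeg_w0 : (univ.filter (fun h => v' h = some w0)).card + 1 ≤ H.card := by
      have h3 : univ.filter (fun h => v' h = some w0) ⊆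
          insert (none, true) (((H.erase h1).erase h2).image
            (fun h => ((some h.1, h.2) : Option E × Bool))) := by
        rintro ⟨e, s⟩ he
        rw [Finset.mem_filter] at he
        cases e with
        | none =>
          cases s
          · exact absurd he.2 (by simp [v'])
          · simp
        | some e =>
          have h3 := he.2
          simp only [v'] at h3
          split_ifs at h3 with h4
          push Not at h4
          rw [Finset.mem_insert, Finset.mem_image]
          right
          refine ⟨(e, s), ?_, rfl⟩
          rw [Finset.mem_erase, Finset.mem_erase, hH, Finset.mem_filter]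
          exact ⟨h4.2, h4.1, Finset.mem_univ _, Option.some.inj h3⟩
      have h4 := Finset.card_le_card h3
      have h5 := Finset.card_insert_le ((none, true) : Option E × Bool)
        (((H.erase h1).erase h2).image (fun h => ((some h.1, h.2) : Option E × Bool)))
      have h6 : (((H.erase h1).erase h2).image
        (fun h => ((some h.1, h.2) : Option E × Bool))).card ≤ ((H.erase h1).erase h2).card :=
        Finset.card_image_le
      have h7 : ((H.erase h1).erase h2).card = H.card - 1 - 1 := by
        rw [Finset.card_erase_of_mem (Finset.mem_erase.2 ⟨Ne.symm hne, hh2⟩),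
          Finset.card_erase_of_mem hh1]
      omega
    have hlt : excess v' < n := by
      rw [← hn]
      unfold excess
      rw [Fintype.sum_option]
      have h3 : (univ.filter (fun h => v' h = none)).card - 3 = 0 := by omega
      rw [h3, zero_add]
      apply Finset.sum_lt_sum
      · intro w _
        by_cases hw : w = w0
        · subst hw
          have : (univ.filter (fun h => v h = w)).card = H.card := rfl
          omega
        · have := hdeg_some w hw
          omega
      · refine ⟨w0, Finset.mem_univ _, ?_⟩
        have : (univ.filter (fun h => v h = w0)).card = H.card := rfl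
        omega
    obtain ⟨S, hS1, hS2⟩ := ih _ hlt (Option W) (Option E) v' A' hA' hnz' rfl
    refine ⟨fun e => S (some e), fun e => hS1 _, ?_⟩
    intro c w
    have h3 := hS2 c (some w)
    have h4 := hS2 c none
    rw [hsum_some (fun e => if c ∈ S e then 1 else 0)] at h3
    rw [hsum_none (fun e => if c ∈ S e then 1 else 0)] at h4
    rw [h4] at h3
    simpa using h3
  · -- all half-edges carry the same value: split off two of them
    push Not at hcase
    obtain ⟨h1, hh1, h2, hh2, hne⟩ := Finset.one_lt_card.1 (show 1 < H.card by omega)
    have hv1 : v h1 = w0 := (Finset.mem_filter.1 hh1).2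
    have hv2 : v h2 = w0 := (Finset.mem_filter.1 hh2).2
    let v' : E × Bool → Option W := fun h => if h = h1 ∨ h = h2 then none else some (v h)
    have hsum_none : ∀ g : E → F2,
        ∑ h : E × Bool, (if v' h = none then g h.1 else 0) = g h1.1 + g h2.1 := by
      intro g
      have h3 : ∀ h ∈ (univ : Finset (E × Bool)), (if v' h = none then g h.1 else 0) =
          (if h = h1 then g h1.1 else 0) + (if h = h2 then g h2.1 else 0) := by
        intro h _
        by_cases c1 : h = h1
        · simp [v', c1, hne]
        · by_cases c2 : h = h2
          · simp [v', c2, Ne.symm hne]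
          · simp [v', c1, c2]
      rw [Finset.sum_congr rfl h3, Finset.sum_add_distrib]
      simp
    have hsum_some : ∀ (g : E → F2) (w : W),
        ∑ h : E × Bool, (if v' h = some w then g h.1 else 0) =
          ∑ h : E × Bool, (if v h = w then g h.1 else 0) +
          (if w = w0 then g h1.1 + g h2.1 else 0) := by
      intro g w
      have h3 : ∀ h ∈ (univ : Finset (E × Bool)), (if v' h = some w then g h.1 else 0) =
          (if v h = w then g h.1 else 0) +
          ((if h = h1 then (if w = w0 then g h1.1 else 0) else 0) +
           (if h = h2 then (if w = w0 then g h2.1 else 0) else 0)) := by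
        intro h _
        by_cases c1 : h = h1
        · subst c1
          by_cases c4 : w = w0
          · simp [v', hne, c4, hv1, f2_add_self]
          · simp [v', hne, c4, hv1, Ne.symm c4]
        · by_cases c2 : h = h2
          · subst c2
            by_cases c4 : w = w0
            · simp [v', c1, c4, hv2, f2_add_self]
            · simp [v', c1, c4, hv2, Ne.symm c4]
          · simp [v', c1, c2]
      rw [Finset.sum_congr rfl h3, Finset.sum_add_distrib, Finset.sum_add_distrib]
      congr 1
      by_cases c4 : w = w0
      · simp [c4]
      · simp [c4]
    have hA' : ∀ i, IsFl v' (A i) := by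
      intro i w
      have h3 : A i h1.1 + A i h2.1 = 0 := by
        rw [hcase h1 hh1 h2 hh2 i]; exact f2_add_self _
      cases w with
      | none => rw [hsum_none]; exact h3
      | some w =>
        rw [hsum_some, h3, hA i w]
        simp
    have hdeg_none : (univ.filter (fun h => v' h = none)).card ≤ 3 := by
      have : univ.filter (fun h => v' h = none) ⊆ ({h1, h2} : Finset (E × Bool)) := by
        intro h he
        rw [Finset.mem_filter] at he
        have h3 := he.2
        simp only [v'] at h3
        split_ifs at h3 with h4
        simpa using h4
      refine (Finset.card_le_card this).trans ?_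
      exact Finset.card_le_two.trans (by norm_num)
    have hdeg_some : ∀ w, (univ.filter (fun h => v' h = some w)).card ≤
        (univ.filter (fun h => v h = w)).card := by
      intro w
      apply Finset.card_le_card
      intro h he
      rw [Finset.mem_filter] at he ⊢
      have h3 := he.2
      simp only [v'] at h3
      split_ifs at h3 with h4
      exact ⟨Finset.mem_univ _, Option.some.inj h3⟩
    have hdeg_w0 : (univ.filter (fun h => v' h = some w0)).card + 1 ≤ H.card := by
      have h3 : univ.filter (fun h => v' h = some w0) ⊆ H.erase h1 := by
        intro h he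
        rw [Finset.mem_filter] at he
        have h3 := he.2
        simp only [v'] at h3
        split_ifs at h3 with h4
        push Not at h4
        rw [Finset.mem_erase, hH, Finset.mem_filter]
        exact ⟨h4.1, Finset.mem_univ _, Option.some.inj h3⟩
      have h4 := Finset.card_le_card h3
      rw [Finset.card_erase_of_mem hh1] at h4
      omega
    have hlt : excess v' < n := by
      rw [← hn]
      unfold excess
      rw [Fintype.sum_option]
      have h3 : (univ.filter (fun h => v' h = none)).card - 3 = 0 := by omega
      rw [h3, zero_add]
      apply Finset.sum_lt_sum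
      · intro w _
        have := hdeg_some w
        omega
      · refine ⟨w0, Finset.mem_univ _, ?_⟩
        have : (univ.filter (fun h => v h = w0)).card = H.card := rfl
        omega
    obtain ⟨S, hS1, hS2⟩ := ih _ hlt (Option W) E v' A hA' hnz rfl
    refine ⟨S, hS1, ?_⟩
    intro c w
    have h3 := hS2 c (some w)
    have h4 := hS2 c none
    rw [hsum_some (fun e => if c ∈ S e then 1 else 0)] at h3
    rw [hsum_none (fun e => if c ∈ S e then 1 else 0)] at h4
    rw [h4] at h3
    simpa using h3

/-- Eight even edge sets cover every edge of a bridgeless graph exactly twice. -/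
theorem exists_double_cover {W E : Type} [Fintype W] [DecidableEq W] [Fintype E] [DecidableEq E]
    (v : E × Bool → W)
    (h1 : ∀ X : Finset W, cn (fun e => v (e, false)) (fun e => v (e, true)) univ X ≠ 1) :
    ∃ S : E → Finset T3, (∀ e, (S e).card = 2) ∧
      ∀ c, IsFl v (fun e => if c ∈ S e then 1 else 0) := by
  obtain ⟨A, hnz, hA⟩ := exists_flow8 _ (fun e => v (e, false)) (fun e => v (e, true)) rfl h1
  exact cover_of_flow _ W E v A (fun i => (isFl_iff v (A i)).2 (hA i)) hnz rfl

end Pool.Agent.H126R2.CDC
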