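import Mathlib

set_option autoImplicit false

/-!
Finite graphs with loops and parallel edges, circuits, circuit double covers.
-/

namespace Pool.Agent.H126R2.CDC

open Finset

/-- A graph with vertex set `V` and edge set `E`: `ends e` is the unordered pair of end-vertices
of the edge `e`. Parallel edges are allowed, and so are loops (`ends e = s(v, v)`). -/
structure MGraph (V E : Type) where
  ends : E → Sym2 V

namespace MGraph

variable {V E : Type} [Fintype V] [DecidableEq V] [Fintype E] [DecidableEq E] (G : MGraph V E)

/-- The degree of the vertex `v` in the subgraph with edge set `D`; a loop at `v` counts twice. -/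
def deg (D : Finset E) (v : V) : ℕ :=
  (D.filter fun e => v ∈ G.ends e).card + (D.filter fun e => G.ends e = s(v, v)).card

/-- `C` is the edge set of a circuit: it is nonempty, every vertex has degree 0 or 2 in it, and
it is connected (any two of its edges are joined by a chain of its edges in which consecutive
edges share a vertex). -/
def IsCircuit (C : Finset E) : Prop :=
  C.Nonempty ∧ (∀ v, G.deg C v = 0 ∨ G.deg C v = 2) ∧
    ∀ e ∈ C, ∀ f ∈ C,
      Relation.ReflTransGen (fun a b => b ∈ C ∧ ∃ v, v ∈ G.ends a ∧ v ∈ G.ends b) e f

/-- Every edge lies on some circuit. -/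
def Bridgeless : Prop := ∀ e, ∃ C, G.IsCircuit C ∧ e ∈ C

/-- `F` is a circuit double cover: a finite family (multiset) of circuits such that every edge
lies in exactly two members, counted with multiplicity. -/
def IsCDC (F : Multiset (Finset E)) : Prop :=
  (∀ C ∈ F, G.IsCircuit C) ∧ ∀ e, F.countP (fun C => e ∈ C) = 2

end MGraph

end Pool.Agent.H126R2.CDC
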