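import Pool.Agent.H44.L.H126R2_CDC_Colour
import Pool.Agent.H44.L.H126R2_CDC_Decomp

set_option autoImplicit false
set_option linter.unusedSectionVars false

/-!
Every bridgeless finite graph has a circuit double cover.
-/

namespace Pool.Agent.H126R2.CDC

open Finset
open Pool.Agent.Helper879.ECD (F2 IsFlow f2_add_self f2_cases cn)

namespace MGraph

variable {V E : Type} [Fintype V] [DecidableEq V] [Fintype E] [DecidableEq E] (G : MGraph V E)

lemma exists_halves : ∃ v : E × Bool → V, ∀ e, G.ends e = s(v (e, false), v (e, true)) := by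
  have h : ∀ e, ∃ p : V × V, G.ends e = s(p.1, p.2) := by
    intro e
    induction h : G.ends e using Sym2.ind with
    | _ x y => exact ⟨(x, y), rfl⟩
  choose p hp using h
  refine ⟨fun h => if h.2 then (p h.1).2 else (p h.1).1, fun e => ?_⟩
  simpa using hp e

lemma ep_eq {e : E} {x y : V} (h : G.ends e = s(x, y)) (w : V) :
    G.ep e w = (if x = w then 1 else 0) + (if y = w then 1 else 0) := by
  unfold ep
  rw [h]
  by_cases hx : x = w
  · by_cases hy : y = w
    · simp [hx, hy]
    · have h2 : ¬ s(x, y) = s(w, w) := by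
        intro h3
        rw [Sym2.eq_iff] at h3
        rcases h3 with ⟨_, h4⟩ | ⟨_, h4⟩ <;> exact hy h4
      rw [if_neg h2, if_pos hx, if_neg hy, if_pos (by simp [hx])]
  · have h2 : ¬ s(x, y) = s(w, w) := by
      intro h3
      rw [Sym2.eq_iff] at h3
      rcases h3 with ⟨h4, _⟩ | ⟨h4, _⟩ <;> exact hx h4
    by_cases hy : y = w
    · rw [if_neg h2, if_neg hx, if_pos hy, if_pos (by simp [hy])]
    · rw [if_neg h2, if_neg hx, if_neg hy, if_neg (by simp [Ne.symm hx, Ne.symm hy])]

lemma cast_deg (v : E × Bool → V) (hv : ∀ e, G.ends e = s(v (e, false), v (e, true)))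
    (D : Finset E) (w : V) :
    ((G.deg D w : ℕ) : F2) =
      ∑ h : E × Bool, (if v h = w then (if h.1 ∈ D then (1 : F2) else 0) else 0) := by
  rw [deg_eq_sum, Nat.cast_sum, Fintype.sum_prod_type]
  have h1 : ∑ e ∈ D, ((G.ep e w : ℕ) : F2) =
      ∑ e : E, (if e ∈ D then ((G.ep e w : ℕ) : F2) else 0) := by
    rw [← Finset.sum_filter]
    congr 1
    ext e
    simp
  rw [h1]
  apply Finset.sum_congr rfl
  intro e _
  rw [Fintype.sum_bool, G.ep_eq (hv e) w]
  by_cases he : e ∈ D
  · simp only [he, if_true]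
    push_cast
    split_ifs <;> simp
  · simp [he]

lemma isEven_iff (v : E × Bool → V) (hv : ∀ e, G.ends e = s(v (e, false), v (e, true)))
    (D : Finset E) : G.IsEven D ↔ IsFl v (fun e => if e ∈ D then 1 else 0) := by
  unfold IsEven IsFl
  apply forall_congr'
  intro w
  rw [← G.cast_deg v hv D w]
  exact (ZMod.natCast_eq_zero_iff_even).symm

lemma no_one_cut (hG : G.Bridgeless) (v : E × Bool → V)
    (hv : ∀ e, G.ends e = s(v (e, false), v (e, true))) (X : Finset V) :
    cn (fun e => v (e, false)) (fun e => v (e, true)) univ X ≠ 1 := by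
  intro h
  unfold cn at h
  obtain ⟨e, he⟩ := Finset.card_eq_one.1 h
  obtain ⟨C, hC, heC⟩ := hG e
  have h1 := (isFl_iff v _).1 ((G.isEven_iff v hv C).1 hC.isEven)
    (fun w => if w ∈ X then 1 else 0)
  have h2 : ∀ f ∈ (univ : Finset E), (if f ∈ C then (1 : F2) else 0) *
      ((if v (f, false) ∈ X then (1 : F2) else 0) + (if v (f, true) ∈ X then (1 : F2) else 0)) =
      if f = e then 1 else 0 := by
    intro f _
    have h3 : f ∈ univ.filter (fun e => ¬ (v (e, false) ∈ X ↔ v (e, true) ∈ X)) ↔
        f ∈ ({e} : Finset E) := by rw [he]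
    simp only [Finset.mem_filter, Finset.mem_univ, true_and, Finset.mem_singleton] at h3
    by_cases hfe : f = e
    · subst hfe
      have h4 := h3.2 rfl
      rw [if_pos heC, if_pos rfl, one_mul]
      by_cases h5 : v (f, false) ∈ X
      · have h6 : v (f, true) ∉ X := fun h6 => h4 ⟨fun _ => h6, fun _ => h5⟩
        simp [h5, h6]
      · have h6 : v (f, true) ∈ X := by
          by_contra h6; exact h4 ⟨fun h => absurd h h5, fun h => absurd h h6⟩
        simp [h5, h6]
    · have h4 := not_not.1 (fun h => hfe (h3.1 h))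
      rw [if_neg hfe]
      by_cases h5 : v (f, false) ∈ X
      · have h6 := h4.1 h5
        rw [if_pos h5, if_pos h6, f2_add_self, mul_zero]
      · have h6 : v (f, true) ∉ X := fun h => h5 (h4.2 h)
        rw [if_neg h5, if_neg h6, add_zero, mul_zero]
  rw [Finset.sum_congr rfl h2] at h1
  simp at h1

/-- The circuit double cover theorem. -/
theorem exists_cdc (hG : G.Bridgeless) : ∃ F : Multiset (Finset E), G.IsCDC F := by
  classical
  obtain ⟨v, hv⟩ := G.exists_halves
  obtain ⟨S, hS1, hS2⟩ := exists_double_cover v (G.no_one_cut hG v hv)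
  have hev : ∀ c : T3, G.IsEven (univ.filter (fun e => c ∈ S e)) := by
    intro c
    rw [G.isEven_iff v hv]
    have h1 := hS2 c
    have h2 : (fun e => if e ∈ univ.filter (fun e => c ∈ S e) then (1 : F2) else 0) =
        (fun e => if c ∈ S e then 1 else 0) := by
      ext e; simp
    rw [h2]
    exact h1
  choose F hF1 hF2 using fun c => G.decompose _ _ rfl (hev c)
  refine ⟨∑ c, F c, ?_, ?_⟩
  · intro C hC
    rw [Multiset.mem_sum] at hC
    obtain ⟨c, _, hc⟩ := hC
    exact hF1 c C hc
  · intro e
    have h1 : ∀ s : Finset T3, (∑ c ∈ s, F c).countP (fun C => e ∈ C) =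
        ∑ c ∈ s, (F c).countP (fun C => e ∈ C) := by
      intro s
      induction s using Finset.induction_on with
      | empty => simp
      | insert c s hc ih => rw [Finset.sum_insert hc, Finset.sum_insert hc, Multiset.countP_add, ih]
    rw [h1]
    have h2 : ∀ c ∈ (univ : Finset T3), (F c).countP (fun C => e ∈ C) =
        if c ∈ S e then 1 else 0 := by
      intro c _
      rw [hF2 c e]
      simp
    rw [Finset.sum_congr rfl h2]
    simp [hS1 e]

end MGraph

end Pool.Agent.H126R2.CDC
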