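import Pool.Agent.H44.L.H126R2_NC_L2

set_option autoImplicit false
set_option linter.unusedSectionVars false

/-!
L3: the nine-colouring for all graphs without cuts of size one, for sets closed under the
relation `{e, f}` is a cut.
-/

namespace Pool.Agent.H126R2.NC

open Finset
open Pool.Agent.Helper879.ECD (F2 cn f2_add_self)

variable {W E : Type} [Fintype W] [DecidableEq W] [Fintype E] [DecidableEq E]

/-- `e = f` or `{e, f}` is a cut -/
def TC (a b : E → W) (e f : E) : Prop :=
  ∃ z : W → F2, ∀ h, z (a h) + z (b h) = (if h = e then 1 else 0) + (if h = f then 1 else 0)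

lemma TC.refl (a b : E → W) (e : E) : TC a b e e :=
  ⟨fun _ => 0, fun h => by rw [f2_add_self, f2_add_self]⟩

lemma TC.symm {a b : E → W} {e f : E} (h : TC a b e f) : TC a b f e := by
  obtain ⟨z, hz⟩ := h
  exact ⟨z, fun h => by rw [hz h, add_comm]⟩

lemma TC.trans {a b : E → W} {e f g : E} (h1 : TC a b e f) (h2 : TC a b f g) : TC a b e g := by
  obtain ⟨z, hz⟩ := h1
  obtain ⟨y, hy⟩ := h2
  refine ⟨fun w => z w + y w, fun h => ?_⟩
  have h3 : z (a h) + y (a h) + (z (b h) + y (b h)) =
      (z (a h) + z (b h)) + (y (a h) + y (b h)) := by ring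
  rw [h3, hz h, hy h]
  have h4 : ∀ x y w : F2, x + y + (y + w) = x + w := by
    intro x y w
    rw [show x + y + (y + w) = x + (y + y) + w by ring, f2_add_self, add_zero]
  exact h4 _ _ _

/-- the setoid of two-edge cuts -/
def tcSetoid (a b : E → W) : Setoid E where
  r := TC a b
  iseqv := ⟨TC.refl a b, TC.symm, TC.trans⟩

/-- representative -/
noncomputable def rep (a b : E → W) (e : E) : E :=
  @Quotient.out E (tcSetoid a b) (@Quotient.mk E (tcSetoid a b) e)

lemma rep_tc (a b : E → W) (e : E) : TC a b (rep a b e) e :=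
  @Quotient.exact E (tcSetoid a b) _ _ (@Quotient.out_eq E (tcSetoid a b) _)

lemma rep_eq_of_tc {a b : E → W} {e f : E} (h : TC a b e f) : rep a b e = rep a b f := by
  unfold rep
  rw [@Quotient.sound E (tcSetoid a b) _ _ h]

lemma rep_rep (a b : E → W) (e : E) : rep a b (rep a b e) = rep a b e :=
  rep_eq_of_tc (rep_tc a b e)

/-- indicator potential of a vertex set -/
lemma ind_cr (a b : E → W) (X : Finset W) (e : E) :
    ((if a e ∈ X then (1 : F2) else 0) + (if b e ∈ X then 1 else 0)) =
      if cr a b X e then 1 else 0 := by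
  by_cases h1 : a e ∈ X <;> by_cases h2 : b e ∈ X
  · rw [if_pos h1, if_pos h2, if_neg, f2_add_self]
    exact fun h => h ⟨fun _ => h2, fun _ => h1⟩
  · rw [if_pos h1, if_neg h2, if_pos, add_zero]
    exact fun h => h2 (h.1 h1)
  · rw [if_neg h1, if_pos h2, if_pos, zero_add]
    exact fun h => h1 (h.2 h2)
  · rw [if_neg h1, if_neg h2, if_neg, add_zero]
    exact fun h => h ⟨fun h => absurd h h1, fun h => absurd h h2⟩

lemma f2_ne {x y : F2} : ¬ (x = 1 ↔ y = 1) ↔ x + y = 1 := by
  revert x y; decide

/-- L3 -/
theorem nine_colouring_bridgeless (a b : E → W) (h1 : ∀ X : Finset W, cn a b univ X ≠ 1) :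
    ∃ col : E → Fin 3 × Fin 3, (∀ e f, TC a b e f → col e = col f) ∧
      ∀ (X : Finset E) (γ : Fin 3 × Fin 3), (∀ e ∈ X, col e = γ) →
        (∀ e ∈ X, ∀ f, TC a b e f → f ∈ X) →
      ∀ B : Finset W, cn a b (univ \ X) B ≠ 1 := by
  classical
  -- contraction of all edges which are not representatives
  let R : E → Prop := fun e => rep a b e = e
  let st : Setoid W := Relation.EqvGen.setoid (fun x y => ∃ e, ¬ R e ∧ a e = x ∧ b e = y)
  let W' := Quotient st
  have : Fintype W' := inferInstance
  let π : W → W' := fun w => Quotient.mk st w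
  have hπ : ∀ e, ¬ R e → π (a e) = π (b e) := by
    intro e he
    exact Quotient.sound (Relation.EqvGen.rel _ _ ⟨e, he, rfl, rfl⟩)
  -- vertex sets not crossed by non-representatives are preimages
  have hpre : ∀ B : Finset W, (∀ e, ¬ R e → ¬ cr a b B e) →
      ∃ B' : Finset W', ∀ w, π w ∈ B' ↔ w ∈ B := by
    intro B hB
    refine ⟨B.image π, ?_⟩
    intro w
    rw [Finset.mem_image]
    constructor
    · rintro ⟨w', hw', hww⟩
      have h2 : Relation.EqvGen (fun x y => ∃ e, ¬ R e ∧ a e = x ∧ b e = y) w' w :=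
        Quotient.exact hww
      have h3 : ∀ x y, Relation.EqvGen (fun x y => ∃ e, ¬ R e ∧ a e = x ∧ b e = y) x y →
          (x ∈ B ↔ y ∈ B) := by
        intro x y hxy
        induction hxy with
        | rel x y h =>
          obtain ⟨e, he, rfl, rfl⟩ := h
          exact not_not.1 (hB e he)
        | refl x => exact Iff.rfl
        | symm x y _ ih => exact ih.symm
        | trans x y z _ _ ih1 ih2 => exact ih1.trans ih2
      exact (h3 _ _ h2).1 hw'
    · intro hw
      exact ⟨w, hw, rfl⟩
  have hcn' : ∀ (M : Finset E) (Y : Finset W'), cn (fun e => π (a e)) (fun e => π (b e)) M Y =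
      cn a b M (univ.filter (fun w => π w ∈ Y)) := by
    intro M Y
    unfold cn
    congr 1
    apply Finset.filter_congr
    intro e _
    simp
  obtain ⟨col', hcol'⟩ := nine_colouring (fun e => π (a e)) (fun e => π (b e)) (by
    intro Y
    rw [hcn']
    set B := univ.filter (fun w => π w ∈ Y) with hBdef
    have hBR : ∀ e, cr a b B e → R e := by
      intro e he
      by_contra hR
      apply he
      simp only [hBdef, Finset.mem_filter, Finset.mem_univ, true_and]
      rw [hπ e hR]
    by_contra hcon
    push Not at hcon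
    have h2 := h1 B
    have h3 : cn a b univ B = 2 := by omega
    unfold cn at h3
    obtain ⟨e, f, hef, hset⟩ := Finset.card_eq_two.1 h3
    have hmem : ∀ h, cr a b B h ↔ (h = e ∨ h = f) := by
      intro h
      have : h ∈ univ.filter (fun e => ¬ (a e ∈ B ↔ b e ∈ B)) ↔ h ∈ ({e, f} : Finset E) := by
        rw [hset]
      simpa [cr] using this
    have h4 : TC a b e f := by
      refine ⟨fun w => if w ∈ B then 1 else 0, fun h => ?_⟩
      rw [ind_cr]
      by_cases h5 : h = e
      · have h6 : h ≠ f := fun h7 => hef (h5.symm.trans h7)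
        rw [if_pos ((hmem h).2 (Or.inl h5)), if_pos h5, if_neg h6, add_zero]
      · by_cases h6 : h = f
        · rw [if_pos ((hmem h).2 (Or.inr h6)), if_neg h5, if_pos h6, zero_add]
        · rw [if_neg (fun h7 => ((hmem h).1 h7).elim h5 h6), if_neg h5, if_neg h6, add_zero]
    have h5 : R e := hBR e ((hmem e).2 (Or.inl rfl))
    have h6 : R f := hBR f ((hmem f).2 (Or.inr rfl))
    have h7 := rep_eq_of_tc h4
    apply hef
    have h8 : rep a b e = e := h5
    have h9 : rep a b f = f := h6
    rw [← h8, ← h9, h7])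
  refine ⟨fun e => col' (rep a b e), fun e f h => congrArg col' (rep_eq_of_tc h), ?_⟩
  intro X γ hX hcl B hB
  unfold cn at hB
  obtain ⟨f, hf⟩ := Finset.card_eq_one.1 hB
  have hmem : ∀ e, (e ∉ X ∧ cr a b B e) ↔ e = f := by
    intro e
    have : e ∈ (univ \ X).filter (fun e => ¬ (a e ∈ B ↔ b e ∈ B)) ↔ e ∈ ({f} : Finset E) := by
      rw [hf]
    simpa [cr] using this
  obtain ⟨hfX, hfB⟩ := (hmem f).2 rfl
  have hrfX : rep a b f ∉ X := fun h => hfX (hcl _ h f (rep_tc a b f))
  -- the new potential
  choose z hz using fun e => rep_tc a b e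
  let g : W → F2 := fun w => (if w ∈ B then 1 else 0) +
    ∑ e ∈ univ.filter (fun e => cr a b B e), z e w
  have hg : ∀ h, g (a h) + g (b h) =
      ∑ e ∈ univ.filter (fun e => cr a b B e), (if h = rep a b e then (1 : F2) else 0) := by
    intro h
    have h2 : g (a h) + g (b h) = ((if a h ∈ B then (1 : F2) else 0) + (if b h ∈ B then 1 else 0)) +
        ∑ e ∈ univ.filter (fun e => cr a b B e), (z e (a h) + z e (b h)) := by
      simp only [g]
      rw [Finset.sum_add_distrib]
      ring
    have h3 : ∑ e ∈ univ.filter (fun e => cr a b B e), (z e (a h) + z e (b h)) =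
        ∑ e ∈ univ.filter (fun e => cr a b B e), (if h = rep a b e then (1 : F2) else 0) +
        (if cr a b B h then 1 else 0) := by
      have h4 : ∀ e ∈ univ.filter (fun e => cr a b B e), (z e (a h) + z e (b h)) =
          (if h = rep a b e then (1 : F2) else 0) + (if h = e then 1 else 0) := by
        intro e _
        rw [hz e h]
      rw [Finset.sum_congr rfl h4, Finset.sum_add_distrib, Finset.sum_ite_eq]
      simp
    rw [h2, h3, ind_cr]
    rw [show (if cr a b B h then (1 : F2) else 0) +
      (∑ e ∈ univ.filter (fun e => cr a b B e), (if h = rep a b e then (1 : F2) else 0) +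
        if cr a b B h then 1 else 0) =
      ∑ e ∈ univ.filter (fun e => cr a b B e), (if h = rep a b e then (1 : F2) else 0) +
      ((if cr a b B h then 1 else 0) + (if cr a b B h then 1 else 0)) by ring, f2_add_self,
      add_zero]
  -- edges crossing the new cut
  have hg1 : ∀ h, ¬ R h → g (a h) + g (b h) = 0 := by
    intro h hR
    rw [hg]
    apply Finset.sum_eq_zero
    intro e _
    rw [if_neg]
    intro h2
    apply hR
    show rep a b h = h
    rw [h2, rep_rep]
  have hg2 : ∀ h, h ∉ X → h ≠ rep a b f → g (a h) + g (b h) = 0 := by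
    intro h hhX hne
    rw [hg]
    apply Finset.sum_eq_zero
    intro e he
    rw [Finset.mem_filter] at he
    rw [if_neg]
    intro h2
    by_cases heX : e ∈ X
    · apply hhX
      rw [h2]
      exact hcl e heX _ (rep_tc a b e).symm
    · exact hne (by rw [h2, (hmem e).1 ⟨heX, he.2⟩])
  have hg3 : g (a (rep a b f)) + g (b (rep a b f)) = 1 := by
    rw [hg, Finset.sum_eq_single f]
    · rw [if_pos rfl]
    · intro e he hne
      rw [Finset.mem_filter] at he
      rw [if_neg]
      intro h2
      by_cases heX : e ∈ X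
      · apply hrfX
        rw [h2]
        exact hcl e heX _ (rep_tc a b e).symm
      · exact hne ((hmem e).1 ⟨heX, he.2⟩)
    · intro h2
      exact absurd (Finset.mem_filter.2 ⟨Finset.mem_univ _, hfB⟩) h2
  let D : Finset W := univ.filter (fun w => g w = 1)
  have hD : ∀ e, cr a b D e ↔ g (a e) + g (b e) = 1 := by
    intro e
    simp only [D, cr, Finset.mem_filter, Finset.mem_univ, true_and]
    exact f2_ne
  obtain ⟨D', hD'⟩ := hpre D (by
    intro e he
    rw [hD, hg1 e he]
    exact zero_ne_one)
  refine hcol' (X.filter (fun e => R e)) γ ?_ D' ?_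
  · intro e he
    rw [Finset.mem_filter] at he
    have h2 : col' (rep a b e) = γ := hX e he.1
    have h3 : rep a b e = e := he.2
    rw [h3] at h2
    exact h2
  · rw [hcn']
    unfold cn
    rw [Finset.card_eq_one]
    refine ⟨rep a b f, ?_⟩
    ext e
    rw [Finset.mem_filter, Finset.mem_singleton]
    have h4 : (¬ (a e ∈ univ.filter (fun w => π w ∈ D') ↔
        b e ∈ univ.filter (fun w => π w ∈ D'))) ↔ g (a e) + g (b e) = 1 := by
      rw [← hD]
      simp only [Finset.mem_filter, Finset.mem_univ, true_and, hD']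
    rw [h4]
    constructor
    · rintro ⟨h5, h6⟩
      by_contra h7
      by_cases h8 : e ∈ X
      · have h9 : ¬ R e := by
          intro h9
          rw [Finset.mem_sdiff] at h5
          exact h5.2 (Finset.mem_filter.2 ⟨h8, h9⟩)
        rw [hg1 e h9] at h6
        exact zero_ne_one h6
      · rw [hg2 e h8 h7] at h6
        exact zero_ne_one h6
    · rintro rfl
      refine ⟨?_, hg3⟩
      rw [Finset.mem_sdiff, Finset.mem_filter]
      exact ⟨Finset.mem_univ _, fun h => hrfX h.1⟩

end Pool.Agent.H126R2.NC
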