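import Pool.Agent.H44.L.H126R2_NC_L3
import Pool.Agent.H44.L.H126R2_CDC_Main

set_option autoImplicit false
set_option linter.unusedSectionVars false

/-!
L4: circuit covers for near-constant even weights.
-/

namespace Pool.Agent.H126R2.NC

open Finset
open Pool.Agent.Helper879.ECD (F2 IsFlow f2_add_self f2_cases cn)
open Pool.Agent.H126R2.CDC (MGraph T3 IsFl isFl_iff exists_double_cover)

variable {V E : Type} [Fintype V] [DecidableEq V] [Fintype E] [DecidableEq E]

/-- `p` is a nonnegative real combination of circuits. -/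
def InCone (G : MGraph V E) (p : E → ℕ) : Prop :=
  ∃ w : Finset E → ℝ, (∀ C, 0 ≤ w C) ∧ (∀ C, ¬ G.IsCircuit C → w C = 0) ∧
    ∀ e, (p e : ℝ) = ∑ C : Finset E, w C * (if e ∈ C then 1 else 0)

/-- `p` is an integer combination of circuits. -/
def InLat (G : MGraph V E) (p : E → ℕ) : Prop :=
  (fun e => (p e : ℤ)) ∈ AddSubgroup.closure
    {x : E → ℤ | ∃ C, G.IsCircuit C ∧ x = fun e => if e ∈ C then 1 else 0}

/-- `(G, p)` has a circuit cover: a finite family (multiset) of circuits such that every edge `e`
lies in exactly `p e` members, counted with multiplicity. -/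
def InIntCone (G : MGraph V E) (p : E → ℕ) : Prop :=
  ∃ F : Multiset (Finset E), (∀ C ∈ F, G.IsCircuit C) ∧ ∀ e, F.countP (fun C => e ∈ C) = p e

lemma countP_eq_sum (F : Multiset (Finset E)) (e : E) :
    F.countP (fun C => e ∈ C) = ∑ C : Finset E, F.count C * (if e ∈ C then 1 else 0) := by
  induction F using Multiset.induction_on with
  | empty => simp
  | cons C F ih =>
    rw [Multiset.countP_cons, ih]
    simp only [Multiset.count_cons, add_mul, Finset.sum_add_distrib]
    congr 1
    rw [Finset.sum_eq_single C]
    · simp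
    · intro D _ hD
      rw [if_neg hD, zero_mul]
    · intro h; exact absurd (Finset.mem_univ _) h

lemma lat_of_family (G : MGraph V E) (F : Multiset (Finset E)) (hF : ∀ C ∈ F, G.IsCircuit C) :
    (fun e => ((F.countP (fun C => e ∈ C) : ℕ) : ℤ)) ∈ AddSubgroup.closure
      {x : E → ℤ | ∃ C, G.IsCircuit C ∧ x = fun e => if e ∈ C then 1 else 0} := by
  induction F using Multiset.induction_on with
  | empty =>
    have h1 : (fun e : E => (((0 : Multiset (Finset E)).countP (fun C => e ∈ C) : ℕ) : ℤ)) = 0 := by
      ext e; simp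
    rw [h1]
    exact AddSubgroup.zero_mem _
  | cons C F ih =>
    have h1 := ih (fun D hD => hF D (Multiset.mem_cons_of_mem hD))
    have h2 : (fun e : E => if e ∈ C then (1 : ℤ) else 0) ∈ AddSubgroup.closure
      {x : E → ℤ | ∃ C, G.IsCircuit C ∧ x = fun e => if e ∈ C then 1 else 0} :=
      AddSubgroup.subset_closure ⟨C, hF C (Multiset.mem_cons_self _ _), rfl⟩
    have h3 := AddSubgroup.add_mem _ h1 h2
    convert h3 using 1
    ext e
    rw [Multiset.countP_cons]
    push_cast
    rfl

lemma cone_lat_of_intCone (G : MGraph V E) (p : E → ℕ) (h : InIntCone G p) :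
    InCone G p ∧ InLat G p := by
  obtain ⟨F, hF, hp⟩ := h
  refine ⟨⟨fun C => F.count C, fun C => Nat.cast_nonneg _, ?_, ?_⟩, ?_⟩
  · intro C hC
    show ((F.count C : ℕ) : ℝ) = 0
    rw [Multiset.count_eq_zero_of_notMem (fun h => hC (hF C h)), Nat.cast_zero]
  · intro e
    rw [← hp e, countP_eq_sum]
    push_cast
    rfl
  · unfold InLat
    have := lat_of_family G F hF
    convert this using 1
    ext e
    rw [hp e]

/-- a double cover by circuits of `G - X` -/
lemma cover_minus (G : MGraph V E) (v : E × Bool → V)
    (hv : ∀ e, G.ends e = s(v (e, false), v (e, true))) (X : Finset E)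
    (hX : ∀ B : Finset V, cn (fun e => v (e, false)) (fun e => v (e, true)) (univ \ X) B ≠ 1) :
    ∃ F : Multiset (Finset E), (∀ C ∈ F, G.IsCircuit C) ∧
      ∀ e, F.countP (fun C => e ∈ C) = if e ∈ X then 0 else 2 := by
  classical
  let v' : E × Bool → V := fun h => if h.1 ∈ X then v (h.1, false) else v h
  obtain ⟨S, hS1, hS2⟩ := exists_double_cover v' (by
    intro B
    have h1 : cn (fun e => v' (e, false)) (fun e => v' (e, true)) univ B =
        cn (fun e => v (e, false)) (fun e => v (e, true)) (univ \ X) B := by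
      unfold cn
      congr 1
      ext e
      simp only [Finset.mem_filter, Finset.mem_univ, true_and, Finset.mem_sdiff, v']
      by_cases h : e ∈ X
      · simp [h]
      · simp [h]
    rw [h1]
    exact hX B)
  have hev : ∀ c : T3, G.IsEven (univ.filter (fun e => c ∈ S e ∧ e ∉ X)) := by
    intro c
    rw [G.isEven_iff v hv, isFl_iff]
    have h1 := (isFl_iff v' _).1 (hS2 c)
    intro f
    refine Eq.trans ?_ (h1 f)
    apply Finset.sum_congr rfl
    intro e _
    by_cases h : e ∈ X
    · simp only [v', h, if_true]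
      rw [f2_add_self, mul_zero, if_neg (by simp [h]), zero_mul]
    · simp only [v', h, if_false]
      congr 1
      simp [h]
  choose F hF1 hF2 using fun c => G.decompose _ _ rfl (hev c)
  refine ⟨∑ c, F c, ?_, ?_⟩
  · intro C hC
    rw [Multiset.mem_sum] at hC
    obtain ⟨c, _, hc⟩ := hC
    exact hF1 c C hc
  · intro e
    have h1 : ∀ s : Finset T3, (∑ c ∈ s, F c).countP (fun C => e ∈ C) =
        ∑ c ∈ s, (F c).countP (fun C => e ∈ C) := by
      intro s
      induction s using Finset.induction_on with
      | empty => simp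
      | insert c s hc ih => rw [Finset.sum_insert hc, Finset.sum_insert hc, Multiset.countP_add, ih]
    rw [h1]
    by_cases h : e ∈ X
    · rw [if_pos h]
      apply Finset.sum_eq_zero
      intro c _
      rw [hF2 c e, if_neg]
      simp [h]
    · rw [if_neg h]
      have h2 : ∀ c ∈ (univ : Finset T3), (F c).countP (fun C => e ∈ C) =
          if c ∈ S e then 1 else 0 := by
        intro c _
        rw [hF2 c e]
        simp [h]
      rw [Finset.sum_congr rfl h2]
      simp [hS1 e]

lemma bridgeless_of_cone (G : MGraph V E) (p : E → ℕ) (hp : InCone G p) (hpos : ∀ e, 0 < p e) :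
    G.Bridgeless := by
  obtain ⟨w, h0, h1, h2⟩ := hp
  intro e
  by_contra hcon
  push Not at hcon
  have h3 : (p e : ℝ) = 0 := by
    rw [h2 e]
    apply Finset.sum_eq_zero
    intro C _
    by_cases hC : G.IsCircuit C
    · rw [if_neg (hcon C hC), mul_zero]
    · rw [h1 C hC, zero_mul]
  have h4 := hpos e
  have h5 : p e = 0 := by exact_mod_cast h3
  omega

lemma circuit_tc (G : MGraph V E) (v : E × Bool → V)
    (hv : ∀ e, G.ends e = s(v (e, false), v (e, true))) {C : Finset E} (hC : G.IsCircuit C)
    {e f : E} (h : TC (fun e => v (e, false)) (fun e => v (e, true)) e f) : e ∈ C ↔ f ∈ C := by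
  obtain ⟨z, hz⟩ := h
  have h1 := (isFl_iff v _).1 ((G.isEven_iff v hv C).1 hC.isEven) z
  have h2 : ∀ h ∈ (univ : Finset E), (if h ∈ C then (1 : F2) else 0) *
      (z (v (h, false)) + z (v (h, true))) =
      (if h = e then (if e ∈ C then 1 else 0) else 0) +
      (if h = f then (if f ∈ C then 1 else 0) else 0) := by
    intro h _
    rw [hz h, mul_add]
    congr 1
    · by_cases h3 : h = e
      · rw [h3]; simp
      · simp [h3]
    · by_cases h3 : h = f
      · rw [h3]; simp
      · simp [h3]
  rw [Finset.sum_congr rfl h2, Finset.sum_add_distrib, Finset.sum_ite_eq', Finset.sum_ite_eq'] at h1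
  simp only [Finset.mem_univ, if_true] at h1
  by_cases he : e ∈ C <;> by_cases hf : f ∈ C
  · exact ⟨fun _ => hf, fun _ => he⟩
  · rw [if_pos he, if_neg hf, add_zero] at h1; exact absurd h1 one_ne_zero
  · rw [if_neg he, if_pos hf, zero_add] at h1; exact absurd h1 one_ne_zero
  · exact ⟨fun h => absurd h he, fun h => absurd h hf⟩

lemma const_of_tc (G : MGraph V E) (v : E × Bool → V)
    (hv : ∀ e, G.ends e = s(v (e, false), v (e, true))) (p : E → ℕ) (hp : InCone G p)
    {e f : E} (h : TC (fun e => v (e, false)) (fun e => v (e, true)) e f) : p e = p f := by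
  obtain ⟨w, h0, h1, h2⟩ := hp
  have h3 : (p e : ℝ) = p f := by
    rw [h2 e, h2 f]
    apply Finset.sum_congr rfl
    intro C _
    by_cases hC : G.IsCircuit C
    · have := circuit_tc G v hv hC h
      by_cases he : e ∈ C
      · rw [if_pos he, if_pos (this.1 he)]
      · rw [if_neg he, if_neg (fun h => he (this.2 h))]
    · rw [h1 C hC, zero_mul, zero_mul]
  exact_mod_cast h3

lemma countP_sum {ι : Type} [DecidableEq ι] (s : Finset ι) (F : ι → Multiset (Finset E)) (e : E) :
    (∑ c ∈ s, F c).countP (fun C => e ∈ C) = ∑ c ∈ s, (F c).countP (fun C => e ∈ C) := by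
  induction s using Finset.induction_on with
  | empty => simp
  | insert c s hc ih => rw [Finset.sum_insert hc, Finset.sum_insert hc, Multiset.countP_add, ih]

/-- Near-constant even weights in the cone have a circuit cover. -/
theorem cover_of_cone (G : MGraph V E) (p : E → ℕ) (hev : ∀ e, Even (p e)) (hpos : ∀ e, 0 < p e)
    (hr : ∀ e f, 8 * p e ≤ 9 * p f) (hp : InCone G p) : InIntCone G p := by
  classical
  by_cases hE : IsEmpty E
  · exact ⟨0, by simp, fun e => (hE.false e).elim⟩
  rw [not_isEmpty_iff] at hE
  obtain ⟨v, hv⟩ := G.exists_halves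
  have hbr := bridgeless_of_cone G p hp hpos
  obtain ⟨col, hcol1, hcol2⟩ := nine_colouring_bridgeless (fun e => v (e, false))
    (fun e => v (e, true)) (G.no_one_cut hbr v hv)
  obtain ⟨e0, -, he0⟩ := Finset.exists_max_image (univ : Finset E) p
    (Finset.univ_nonempty)
  obtain ⟨e1, -, he1⟩ := Finset.exists_min_image (univ : Finset E) p
    (Finset.univ_nonempty)
  choose q hq using hev
  have hqp : ∀ e, p e = 2 * q e := fun e => by rw [hq e]; ring
  set M := q e0 with hM
  set T := q e0 - q e1 with hT
  have hle0 : ∀ e, q e ≤ M := fun e => by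
    have := he0 e (Finset.mem_univ _)
    rw [hqp, hqp] at this; omega
  have hle1 : ∀ e, q e1 ≤ q e := fun e => by
    have := he1 e (Finset.mem_univ _)
    rw [hqp, hqp] at this; omega
  have h9 : 9 * T ≤ M := by
    have := hr e0 e1
    rw [hqp, hqp] at this
    omega
  have hcov : ∀ (t : ℕ) (γ : Fin 3 × Fin 3), ∃ F : Multiset (Finset E),
      (∀ C ∈ F, G.IsCircuit C) ∧ ∀ e, F.countP (fun C => e ∈ C) =
        if e ∈ univ.filter (fun e => t < M - q e ∧ col e = γ) then 0 else 2 := by
    intro t γ
    apply cover_minus G v hv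
    apply hcol2 _ γ
    · intro e he
      exact (Finset.mem_filter.1 he).2.2
    · intro e he f hef
      rw [Finset.mem_filter] at he ⊢
      have h1 := const_of_tc G v hv p hp hef
      rw [hqp, hqp] at h1
      refine ⟨Finset.mem_univ _, ?_, ?_⟩
      · have := he.2.1; omega
      · rw [← hcol1 e f hef]; exact he.2.2
  choose F hF1 hF2 using hcov
  obtain ⟨F0, hF01, hF02⟩ := G.exists_cdc hbr
  refine ⟨∑ x ∈ (Finset.range T) ×ˢ (univ : Finset (Fin 3 × Fin 3)), F x.1 x.2 +
    (M - 9 * T) • F0, ?_, ?_⟩
  · intro C hC
    rw [Multiset.mem_add] at hC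
    rcases hC with hC | hC
    · rw [Multiset.mem_sum] at hC
      obtain ⟨c, _, hc⟩ := hC
      exact hF1 _ _ C hc
    · exact hF01 C (Multiset.mem_of_mem_nsmul hC)
  · intro e
    rw [Multiset.countP_add, countP_sum, Multiset.countP_nsmul, hF02 e]
    have h1 : ∑ x ∈ (Finset.range T) ×ˢ (univ : Finset (Fin 3 × Fin 3)),
        (F x.1 x.2).countP (fun C => e ∈ C) + 2 * (M - q e) = 18 * T := by
      rw [Finset.sum_product]
      dsimp only
      have h2 : ∀ t ∈ Finset.range T, ∑ γ : Fin 3 × Fin 3, (F t γ).countP (fun C => e ∈ C) +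
          (if t < M - q e then 2 else 0) = 18 := by
        intro t _
        have h3 : ∀ γ ∈ (univ : Finset (Fin 3 × Fin 3)), (F t γ).countP (fun C => e ∈ C) +
            (if γ = col e then (if t < M - q e then 2 else 0) else 0) = 2 := by
          intro γ _
          rw [hF2 t γ e]
          by_cases h4 : t < M - q e
          · by_cases h5 : γ = col e
            · subst h5; simp [h4]
            · simp [h4, h5, Ne.symm h5]
          · simp [h4]
        have h4 := Finset.sum_congr rfl h3
        rw [Finset.sum_add_distrib, Finset.sum_ite_eq'] at h4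
        simpa using h4
      have h5 := Finset.sum_congr rfl h2
      rw [Finset.sum_add_distrib, ← Finset.sum_filter, Finset.sum_const, Finset.sum_const,
        Finset.card_range] at h5
      have h6 : ((Finset.range T).filter (fun t => t < M - q e)).card = M - q e := by
        have h7 : (Finset.range T).filter (fun t => t < M - q e) = Finset.range (M - q e) := by
          ext t
          rw [Finset.mem_filter, Finset.mem_range, Finset.mem_range]
          have := hle1 e
          omega
        rw [h7, Finset.card_range]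
      rw [h6] at h5
      simp only [smul_eq_mul] at h5
      omega
    have h2 := hle0 e
    have h3 := hqp e
    have h4 : (M - 9 * T) * 2 + 18 * T = 2 * M := by omega
    omega

/-- Seymour's even circuit cover conjecture for near-constant weights. -/
theorem near_constant (G : MGraph V E) (p : E → ℕ) (hev : ∀ e, Even (p e)) (hpos : ∀ e, 0 < p e)
    (hr : ∀ e f, 8 * p e ≤ 9 * p f) : InIntCone G p ↔ InCone G p ∧ InLat G p :=
  ⟨cone_lat_of_intCone G p, fun h => cover_of_cone G p hev hpos hr h.1⟩

end Pool.Agent.H126R2.NC
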