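import Pool.Agent.H44.L.Helper879_ECD_Cuts

set_option autoImplicit false

namespace Pool.Agent.Helper879.ECD

open Finset

section Packing

variable {F U E : Type} [Field F] [AddCommGroup U] [Module F U] [DecidableEq E]

/-- span of a finite set of indices -/
def sp (F : Type) {U E : Type} [Field F] [AddCommGroup U] [Module F U] (x : E → U)
    (I : Finset E) : Submodule F U := Submodule.span F (x '' (I : Set E))

/-- independence of a finite set of indices -/
def Ind (F : Type) {U E : Type} [Field F] [AddCommGroup U] [Module F U] (x : E → U)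
    (I : Finset E) : Prop := LinearIndepOn F x (I : Set E)

variable {x : E → U}

lemma sp_mono {I J : Finset E} (h : I ⊆ J) : sp F x I ≤ sp F x J :=
  Submodule.span_mono (Set.image_mono (Finset.coe_subset.2 h))

lemma mem_sp {I : Finset E} {e : E} (h : e ∈ I) : x e ∈ sp F x I :=
  Submodule.subset_span ⟨e, Finset.mem_coe.2 h, rfl⟩

lemma Ind.subset {I J : Finset E} (h : Ind F x J) (hs : I ⊆ J) : Ind F x I :=
  LinearIndepOn.mono h (Finset.coe_subset.2 hs)

lemma Ind.insert {I : Finset E} {e : E} (h : Ind F x I) (he : x e ∉ sp F x I) :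
    Ind F x (insert e I) := by
  unfold Ind
  rw [Finset.coe_insert]
  exact LinearIndepOn.insert h he

lemma exists_coeff {I : Finset E} {u : U} (h : u ∈ sp F x I) :
    ∃ c : E → F, ∑ g ∈ I, c g • x g = u := by
  unfold sp at h
  rw [Submodule.mem_span_image_finset_iff_exists_fun] at h
  obtain ⟨c, hc⟩ := h
  refine ⟨fun e => if h : e ∈ I then c ⟨e, h⟩ else 0, ?_⟩
  rw [← hc, ← Finset.sum_coe_sort I]
  apply Finset.sum_congr rfl
  intro i _
  simp only [i.2, dite_true]

lemma sum_mem_sp {I : Finset E} (c : E → F) : ∑ g ∈ I, c g • x g ∈ sp F x I :=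
  Submodule.sum_mem _ (fun g hg => Submodule.smul_mem _ _ (mem_sp hg))

lemma mem_sp_exch {I : Finset E} {e : E} (hI : Ind F x I) (he : x e ∈ sp F x I)
    {A : Finset E} (hA : ∀ g ∈ I, x e ∉ sp F x (I.erase g) → g ∈ A) :
    x e ∈ sp F x (I ∩ A) := by
  classical
  obtain ⟨c, hc⟩ := exists_coeff he
  rw [← hc]
  apply Submodule.sum_mem
  intro g hg
  by_cases h0 : c g = 0
  · rw [h0, zero_smul]; exact Submodule.zero_mem _
  · apply Submodule.smul_mem
    apply mem_sp
    rw [Finset.mem_inter]
    refine ⟨hg, hA g hg ?_⟩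
    intro hcon
    obtain ⟨d, hd⟩ := exists_coeff hcon
    apply h0
    have hlin := linearIndepOn_finset_iff.1 hI (fun h => c h - if h = g then 0 else d h) (by
      have h1 : ∑ i ∈ I, (c i - if i = g then 0 else d i) • x i =
          ∑ i ∈ I, c i • x i - ∑ i ∈ I, (if i = g then 0 else d i) • x i := by
        rw [← Finset.sum_sub_distrib]
        apply Finset.sum_congr rfl
        intro i _
        rw [sub_smul]
      rw [h1, hc, ← Finset.add_sum_erase I _ hg]
      simp only [if_true, zero_smul, zero_add]
      have h2 : ∑ i ∈ I.erase g, (if i = g then (0 : F) else d i) • x i =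
          ∑ i ∈ I.erase g, d i • x i := by
        apply Finset.sum_congr rfl
        intro i hi
        rw [if_neg (Finset.ne_of_mem_erase hi)]
      rw [h2, hd, sub_self]) g hg
    simpa using hlin

lemma sp_exch {A : Finset E} {e f : E} (hf : f ∈ A) (he : x e ∈ sp F x A)
    (hne : x e ∉ sp F x (A.erase f)) : sp F x (insert e (A.erase f)) = sp F x A := by
  apply le_antisymm
  · unfold sp
    rw [Submodule.span_le]
    rintro _ ⟨g, hg, rfl⟩
    rw [Finset.coe_insert] at hg
    rcases hg with rfl | hg
    · exact he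
    · exact mem_sp (Finset.mem_of_mem_erase (Finset.mem_coe.1 hg))
  · have hxf : x f ∈ sp F x (insert e (A.erase f)) := by
      have h1 : x e ∈ Submodule.span F (insert (x f) (x '' ((A.erase f : Finset E) : Set E))) := by
        have h2 : insert (x f) (x '' ((A.erase f : Finset E) : Set E)) = x '' (A : Set E) := by
          rw [← Set.image_insert_eq, ← Finset.coe_insert, Finset.insert_erase hf]
        rw [h2]; exact he
      have h3 := mem_span_insert_exchange h1 hne
      unfold sp
      rw [Finset.coe_insert, Set.image_insert_eq]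
      exact h3
    unfold sp
    rw [Submodule.span_le]
    rintro _ ⟨g, hg, rfl⟩
    by_cases hgf : g = f
    · rw [hgf]; exact hxf
    · exact mem_sp (Finset.mem_insert_of_mem (Finset.mem_erase.2 ⟨hgf, Finset.mem_coe.1 hg⟩))

lemma Ind.card [FiniteDimensional F U] {I : Finset E} (h : Ind F x I) :
    Module.finrank F (sp F x I) = I.card := by
  unfold sp
  have h1 : LinearIndependent F (fun i : (I : Set E) => x i) := h
  have h2 := finrank_span_eq_card h1
  have h3 : Set.range (fun i : (I : Set E) => x i) = x '' (I : Set E) := by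
    ext u; simp
  rw [h3] at h2
  rw [h2]
  simp

open Classical in
/-- Base packing: two disjoint spanning sets. -/
theorem pack [FiniteDimensional F U] [Fintype E]
    (hH : ∀ R : Finset E, 2 * Module.finrank F (sp F x univ) ≤
      2 * Module.finrank F (sp F x R) + (univ.filter (fun e => ¬ x e ∈ sp F x R)).card) :
    ∃ I J : Finset E, Disjoint I J ∧ sp F x I = sp F x univ ∧ sp F x J = sp F x univ := by
  classical
  let good : Finset E × Finset E → Prop := fun p => Disjoint p.1 p.2 ∧ Ind F x p.1 ∧ Ind F x p.2
  have hex : (univ.filter good).Nonempty := by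
    refine ⟨(∅, ∅), ?_⟩
    rw [Finset.mem_filter]
    refine ⟨Finset.mem_univ _, ?_, ?_, ?_⟩
    · simp
    · unfold Ind; simp
    · unfold Ind; simp
  obtain ⟨p0, hp0, hmax⟩ := Finset.exists_max_image (univ.filter good)
    (fun p => p.1.card + p.2.card) hex
  rw [Finset.mem_filter] at hp0
  have hg0 : good p0 := hp0.2
  set m := p0.1.card + p0.2.card with hm
  have hmax' : ∀ p, good p → p.1.card + p.2.card ≤ m := by
    intro p hp
    exact hmax p (by rw [Finset.mem_filter]; exact ⟨Finset.mem_univ _, hp⟩)
  -- good pairs of maximum size span every uncovered element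
  have hspan : ∀ p, good p → p.1.card + p.2.card = m → ∀ e, e ∉ p.1 → e ∉ p.2 →
      x e ∈ sp F x p.1 ∧ x e ∈ sp F x p.2 := by
    rintro ⟨I, J⟩ ⟨hd, hI, hJ⟩ hc e heI heJ
    simp only at *
    constructor
    · by_contra hcon
      have := hmax' (insert e I, J) ⟨by
        simp only
        rw [Finset.disjoint_insert_left]; exact ⟨heJ, hd⟩, hI.insert hcon, hJ⟩
      simp only at this
      rw [Finset.card_insert_of_notMem heI] at this
      omega
    · by_contra hcon
      have := hmax' (I, insert e J) ⟨by
        simp only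
        rw [Finset.disjoint_insert_right]; exact ⟨heI, hd⟩, hI, hJ.insert hcon⟩
      simp only at this
      rw [Finset.card_insert_of_notMem heJ] at this
      omega
  let step : Finset E × Finset E → Finset E × Finset E → Prop := fun p q =>
    ∃ e f, e ∉ p.1 ∧ e ∉ p.2 ∧
      ((f ∈ p.1 ∧ x e ∉ sp F x (p.1.erase f) ∧ q = (insert e (p.1.erase f), p.2)) ∨
       (f ∈ p.2 ∧ x e ∉ sp F x (p.2.erase f) ∧ q = (p.1, insert e (p.2.erase f))))
  have hstep_good : ∀ p q, good p → p.1.card + p.2.card = m → step p q →
      good q ∧ q.1.card + q.2.card = m := by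
    rintro ⟨I, J⟩ q ⟨hd, hI, hJ⟩ hc ⟨e, f, heI, heJ, h⟩
    simp only at *
    rcases h with ⟨hf, hne, rfl⟩ | ⟨hf, hne, rfl⟩
    · refine ⟨⟨?_, ?_, hJ⟩, ?_⟩
      · simp only
        rw [Finset.disjoint_insert_left]
        exact ⟨heJ, Finset.disjoint_of_subset_left (Finset.erase_subset _ _) hd⟩
      · exact (hI.subset (Finset.erase_subset _ _)).insert hne
      · simp only
        rw [Finset.card_insert_of_notMem (fun h => heI (Finset.mem_of_mem_erase h)),
          Finset.card_erase_of_mem hf]
        have := Finset.card_pos.2 ⟨f, hf⟩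
        omega
    · refine ⟨⟨?_, hI, ?_⟩, ?_⟩
      · simp only
        rw [Finset.disjoint_insert_right]
        exact ⟨heI, Finset.disjoint_of_subset_right (Finset.erase_subset _ _) hd⟩
      · exact (hJ.subset (Finset.erase_subset _ _)).insert hne
      · simp only
        rw [Finset.card_insert_of_notMem (fun h => heJ (Finset.mem_of_mem_erase h)),
          Finset.card_erase_of_mem hf]
        have := Finset.card_pos.2 ⟨f, hf⟩
        omega
  let Reach : Finset E × Finset E → Prop := fun p => Relation.ReflTransGen step p0 p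
  have hreach_good : ∀ p, Reach p → good p ∧ p.1.card + p.2.card = m := by
    intro p hp
    induction hp with
    | refl => exact ⟨hg0, rfl⟩
    | tail _ h ih => exact hstep_good _ _ ih.1 ih.2 h
  obtain ⟨R, hR⟩ : ∃ R : Finset E, ∀ e, e ∈ R ↔ ∃ p, Reach p ∧ e ∉ p.1 ∧ e ∉ p.2 :=
    ⟨univ.filter (fun e => ∃ p, Reach p ∧ e ∉ p.1 ∧ e ∉ p.2), by intro e; simp⟩
  -- an uncovered element is spanned by the part inside `R`
  have hinR : ∀ p, Reach p → ∀ e, e ∉ p.1 → e ∉ p.2 →
      x e ∈ sp F x (p.1 ∩ R) ∧ x e ∈ sp F x (p.2 ∩ R) := by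
    intro p hp e h1 h2
    obtain ⟨hg, hc⟩ := hreach_good p hp
    obtain ⟨s1, s2⟩ := hspan p hg hc e h1 h2
    constructor
    · apply mem_sp_exch hg.2.1 s1
      intro g hgI hne
      rw [hR]
      refine ⟨(insert e (p.1.erase g), p.2), hp.tail ⟨e, g, h1, h2, Or.inl ⟨hgI, hne, rfl⟩⟩, ?_, ?_⟩
      · simp only
        rw [Finset.mem_insert]
        push Not
        exact ⟨fun h => h1 (h ▸ hgI), fun h => absurd rfl (Finset.ne_of_mem_erase h)⟩
      · exact fun h => Finset.disjoint_left.1 hg.1 hgI h
    · apply mem_sp_exch hg.2.2 s2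
      intro g hgI hne
      rw [hR]
      refine ⟨(p.1, insert e (p.2.erase g)), hp.tail ⟨e, g, h1, h2, Or.inr ⟨hgI, hne, rfl⟩⟩, ?_, ?_⟩
      · exact fun h => Finset.disjoint_left.1 hg.1 h hgI
      · simp only
        rw [Finset.mem_insert]
        push Not
        exact ⟨fun h => h2 (h ▸ hgI), fun h => absurd rfl (Finset.ne_of_mem_erase h)⟩
  have hinv : ∀ p, Reach p → sp F x (p.1 ∩ R) = sp F x (p0.1 ∩ R) ∧
      sp F x (p.2 ∩ R) = sp F x (p0.2 ∩ R) := by
    intro p hp
    induction hp with
    | refl => exact ⟨rfl, rfl⟩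
    | @tail p q hpp hpq ih =>
      obtain ⟨e, f, h1, h2, h⟩ := hpq
      obtain ⟨hg, hc⟩ := hreach_good p hpp
      have heR : e ∈ R := (hR e).2 ⟨p, hpp, h1, h2⟩
      obtain ⟨t1, t2⟩ := hinR p hpp e h1 h2
      rcases h with ⟨hf, hne, rfl⟩ | ⟨hf, hne, rfl⟩
      · refine ⟨?_, ih.2⟩
        rw [← ih.1]
        have hfR : f ∈ R := by
          rw [hR]
          refine ⟨_, hpp.tail ⟨e, f, h1, h2, Or.inl ⟨hf, hne, rfl⟩⟩, ?_, ?_⟩
          · simp only
            rw [Finset.mem_insert]
            push Not
            exact ⟨fun h => h1 (h ▸ hf), fun h => absurd rfl (Finset.ne_of_mem_erase h)⟩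
          · exact fun h => Finset.disjoint_left.1 hg.1 hf h
        have heq : insert e (p.1.erase f) ∩ R = insert e ((p.1 ∩ R).erase f) := by
          ext g
          simp only [Finset.mem_inter, Finset.mem_insert, Finset.mem_erase]
          constructor
          · rintro ⟨h | h, h'⟩
            · exact Or.inl h
            · exact Or.inr ⟨h.1, h.2, h'⟩
          · rintro (h | h)
            · exact ⟨Or.inl h, h ▸ heR⟩
            · exact ⟨Or.inr ⟨h.1, h.2.1⟩, h.2.2⟩
        simp only
        rw [heq]
        apply sp_exch (Finset.mem_inter.2 ⟨hf, hfR⟩) t1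
        intro hcon
        apply hne
        exact sp_mono (Finset.erase_subset_erase _ Finset.inter_subset_left) hcon
      · refine ⟨ih.1, ?_⟩
        rw [← ih.2]
        have hfR : f ∈ R := by
          rw [hR]
          refine ⟨_, hpp.tail ⟨e, f, h1, h2, Or.inr ⟨hf, hne, rfl⟩⟩, ?_, ?_⟩
          · exact fun h => Finset.disjoint_left.1 hg.1 h hf
          · simp only
            rw [Finset.mem_insert]
            push Not
            exact ⟨fun h => h2 (h ▸ hf), fun h => absurd rfl (Finset.ne_of_mem_erase h)⟩
        have heq : insert e (p.2.erase f) ∩ R = insert e ((p.2 ∩ R).erase f) := by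
          ext g
          simp only [Finset.mem_inter, Finset.mem_insert, Finset.mem_erase]
          constructor
          · rintro ⟨h | h, h'⟩
            · exact Or.inl h
            · exact Or.inr ⟨h.1, h.2, h'⟩
          · rintro (h | h)
            · exact ⟨Or.inl h, h ▸ heR⟩
            · exact ⟨Or.inr ⟨h.1, h.2.1⟩, h.2.2⟩
        simp only
        rw [heq]
        apply sp_exch (Finset.mem_inter.2 ⟨hf, hfR⟩) t2
        intro hcon
        apply hne
        exact sp_mono (Finset.erase_subset_erase _ Finset.inter_subset_left) hcon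
  -- both parts span `R`
  have hspR : sp F x (p0.1 ∩ R) = sp F x R ∧ sp F x (p0.2 ∩ R) = sp F x R := by
    constructor
    · apply le_antisymm (sp_mono Finset.inter_subset_right)
      unfold sp
      rw [Submodule.span_le]
      rintro _ ⟨e, he, rfl⟩
      obtain ⟨p, hp, h1, h2⟩ := (hR e).1 (Finset.mem_coe.1 he)
      have := (hinR p hp e h1 h2).1
      rw [(hinv p hp).1] at this
      exact this
    · apply le_antisymm (sp_mono Finset.inter_subset_right)
      unfold sp
      rw [Submodule.span_le]
      rintro _ ⟨e, he, rfl⟩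
      obtain ⟨p, hp, h1, h2⟩ := (hR e).1 (Finset.mem_coe.1 he)
      have := (hinR p hp e h1 h2).2
      rw [(hinv p hp).2] at this
      exact this
  obtain ⟨I, J⟩ := p0
  simp only at *
  obtain ⟨hd, hI, hJ⟩ := hg0
  simp only at hd hI hJ
  have c1 := (hI.subset (Finset.inter_subset_left (s₂ := R))).card
  have c2 := (hJ.subset (Finset.inter_subset_left (s₂ := R))).card
  rw [hspR.1] at c1
  rw [hspR.2] at c2
  have c3 := hI.card
  have c4 := hJ.card
  have c5 : (I \ R).card + (I ∩ R).card = I.card := Finset.card_sdiff_add_card_inter I R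
  have c6 : (J \ R).card + (J ∩ R).card = J.card := Finset.card_sdiff_add_card_inter J R
  have c7 : (univ.filter (fun e => ¬ x e ∈ sp F x R)).card ≤ (I \ R).card + (J \ R).card := by
    rw [← Finset.card_union_of_disjoint (Finset.disjoint_of_subset_left Finset.sdiff_subset
      (Finset.disjoint_of_subset_right Finset.sdiff_subset hd))]
    apply Finset.card_le_card
    intro e he
    rw [Finset.mem_filter] at he
    have heR : e ∉ R := fun h => he.2 (mem_sp h)
    rw [Finset.mem_union, Finset.mem_sdiff, Finset.mem_sdiff]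
    by_contra hcon
    apply heR
    rw [hR]
    refine ⟨(I, J), Relation.ReflTransGen.refl, ?_, ?_⟩
    · exact fun h => hcon (Or.inl ⟨h, heR⟩)
    · exact fun h => hcon (Or.inr ⟨h, heR⟩)
  have c8 := hH R
  have c9 : Module.finrank F (sp F x I) ≤ Module.finrank F (sp F x univ) :=
    Submodule.finrank_mono (sp_mono (Finset.subset_univ _))
  have c10 : Module.finrank F (sp F x J) ≤ Module.finrank F (sp F x univ) :=
    Submodule.finrank_mono (sp_mono (Finset.subset_univ _))
  refine ⟨I, J, hd, ?_, ?_⟩
  · apply Submodule.eq_of_le_of_finrank_eq (sp_mono (Finset.subset_univ _))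
    omega
  · apply Submodule.eq_of_le_of_finrank_eq (sp_mono (Finset.subset_univ _))
    omega

end Packing

end Pool.Agent.Helper879.ECD
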