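import Pool.Agent.H44.L.H126R2_NC_L4

set_option autoImplicit false
set_option linter.unusedSectionVars false

/-!
Block covers: if deleting the edges of a set `X` closed under two-edge cuts leaves no cut with
exactly one edge (also after putting back parts of `X`), then for every part `F` of `X` closed under
two-edge cuts there is a family of circuits covering the edges outside `X` four times, the edges of
`F` eight times and the other edges of `X` not at all.
-/

namespace Pool.Agent.TH399.CC

open Finset
open Pool.Agent.Helper879.ECD (F2 IsFlow f2_add_self f2_cases cn)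
open Pool.Agent.H126R2.CDC (MGraph isFl_iff exists_flow8 functional_eq mem_cob_of_orth)
open Pool.Agent.H126R2.NC (TC rep rep_tc rep_eq_of_tc rep_rep cr countP_sum)

section flows

variable {W E : Type} [Fintype W] [DecidableEq W] [Fintype E] [DecidableEq E]

lemma isFlow_add {a b : E → W} {x y : E → F2} (hx : IsFlow a b x) (hy : IsFlow a b y) :
    IsFlow a b (fun e => x e + y e) := by
  intro c
  have h1 := hx c
  have h2 := hy c
  simp only [add_mul, Finset.sum_add_distrib] at *
  rw [h1, h2, add_zero]

lemma isFlow_smul {a b : E → W} {x : E → F2} (r : F2) (hx : IsFlow a b x) :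
    IsFlow a b (fun e => r * x e) := by
  intro c
  have h1 := hx c
  simp only [mul_assoc, ← Finset.mul_sum] at *
  rw [h1, mul_zero]

/-- a flow with prescribed values on `X` exists unless a cut inside `X` forbids it -/
lemma exists_flow_on (a b : E → W) (X F : Finset E)
    (h : ∀ c : W → F2, (∀ e, e ∉ X → c (a e) + c (b e) = 0) →
      ∑ e ∈ F, (c (a e) + c (b e)) = 0) :
    ∃ Z : E → F2, IsFlow a b Z ∧ ∀ e ∈ X, Z e = if e ∈ F then 1 else 0 := by
  classical
  let S : Submodule F2 (E → F2) :=
    { carrier := {x | ∃ Z : E → F2, IsFlow a b Z ∧ ∀ e ∈ X, Z e = x e}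
      zero_mem' := ⟨fun _ => 0, fun c => by simp, fun e _ => by simp⟩
      add_mem' := by
        rintro x y ⟨B, hB, hBx⟩ ⟨B', hB', hBy⟩
        refine ⟨fun e => B e + B' e, isFlow_add hB hB', fun e he => ?_⟩
        simp only [Pi.add_apply]
        rw [hBx e he, hBy e he]
      smul_mem' := by
        rintro r x ⟨B, hB, hBx⟩
        refine ⟨fun e => r * B e, isFlow_smul r hB, fun e he => ?_⟩
        simp only [Pi.smul_apply, smul_eq_mul]
        rw [hBx e he] }
  suffices hS : (fun e => if e ∈ F then (1 : F2) else 0) ∈ S from hS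
  by_contra hcon
  obtain ⟨f, hf1, hf2⟩ := Submodule.exists_dual_map_eq_bot_of_notMem hcon inferInstance
  have hf : ∀ x ∈ S, f x = 0 := by
    intro x hx
    have : f x ∈ S.map f := Submodule.mem_map_of_mem hx
    rw [hf2] at this
    exact (Submodule.mem_bot F2).1 this
  set d : E → F2 := fun e => f (Pi.single e 1) with hd
  have hd0 : ∀ e, e ∉ X → d e = 0 := by
    intro e he
    apply hf
    refine ⟨fun _ => 0, fun c => by simp, fun e' he' => ?_⟩
    have hne : e' ≠ e := fun h => he (h ▸ he')
    rw [Pi.single_eq_of_ne hne]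
  obtain ⟨c, hc⟩ := mem_cob_of_orth a b d (by
    intro B hB
    have h1 := hf B ⟨B, hB, fun _ _ => rfl⟩
    rw [functional_eq] at h1
    rw [← h1]
    apply Finset.sum_congr rfl
    intro e _
    simp only [hd]
    ring)
  apply hf1
  rw [functional_eq]
  have h1 := h c (fun e he => by rw [← hc]; exact hd0 e he)
  refine Eq.trans ?_ h1
  simp only [mul_ite, mul_one, mul_zero]
  rw [Finset.sum_ite_mem, Finset.univ_inter]
  exact Finset.sum_congr rfl (fun e _ => hc e)

/-- a cut inside `X` meets every part of `X` closed under two-edge cuts evenly -/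
lemma cut_even (a b : E → W) (X F : Finset E)
    (hX : ∀ e ∈ X, ∀ f, TC a b e f → f ∈ X) (hF : ∀ e ∈ F, ∀ f, TC a b e f → f ∈ F)
    (hdel : ∀ X' ⊆ X, (∀ e ∈ X', ∀ f, TC a b e f → f ∈ X') →
      ∀ B : Finset W, cn a b (univ \ X') B ≠ 1)
    (c : W → F2) (hc : ∀ e, e ∉ X → c (a e) + c (b e) = 0) :
    ∑ e ∈ F, (c (a e) + c (b e)) = 0 := by
  classical
  choose z hz using fun e => rep_tc a b e
  set D : Finset E := univ.filter (fun e => c (a e) + c (b e) = 1) with hD
  have hDX : ∀ e ∈ D, e ∈ X := by
    intro e he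
    by_contra hx
    rw [hD, Finset.mem_filter, hc e hx] at he
    exact zero_ne_one he.2
  have hrepX : ∀ e ∈ X, rep a b e ∈ X := fun e he => hX e he _ (rep_tc a b e).symm
  let g : W → F2 := fun w => c w + ∑ e ∈ D, z e w
  have hdc : ∀ h, c (a h) + c (b h) = if h ∈ D then 1 else 0 := by
    intro h
    by_cases hh : h ∈ D
    · rw [if_pos hh]
      exact (Finset.mem_filter.1 hh).2
    · rw [if_neg hh]
      rcases f2_cases (c (a h) + c (b h)) with h1 | h1
      · exact h1
      · exact absurd (Finset.mem_filter.2 ⟨Finset.mem_univ h, h1⟩) hh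
  have hg : ∀ h, g (a h) + g (b h) = ∑ e ∈ D, (if h = rep a b e then (1 : F2) else 0) := by
    intro h
    have h2 : g (a h) + g (b h) = (c (a h) + c (b h)) + ∑ e ∈ D, (z e (a h) + z e (b h)) := by
      simp only [g]
      rw [Finset.sum_add_distrib]
      ring
    have h3 : ∑ e ∈ D, (z e (a h) + z e (b h)) =
        ∑ e ∈ D, (if h = rep a b e then (1 : F2) else 0) + (if h ∈ D then 1 else 0) := by
      have h4 : ∀ e ∈ D, (z e (a h) + z e (b h)) =
          (if h = rep a b e then (1 : F2) else 0) + (if h = e then 1 else 0) := by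
        intro e _
        rw [hz e h]
      rw [Finset.sum_congr rfl h4, Finset.sum_add_distrib, Finset.sum_ite_eq]
    rw [h2, h3, hdc h]
    rw [show (if h ∈ D then (1 : F2) else 0) +
      (∑ e ∈ D, (if h = rep a b e then (1 : F2) else 0) + if h ∈ D then 1 else 0) =
      ∑ e ∈ D, (if h = rep a b e then (1 : F2) else 0) +
      ((if h ∈ D then 1 else 0) + (if h ∈ D then 1 else 0)) by ring, f2_add_self, add_zero]
  -- all these sums vanish
  have hg0 : ∀ r, g (a r) + g (b r) = 0 := by
    intro r
    by_contra hr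
    have hr1 : g (a r) + g (b r) = 1 := by
      rcases f2_cases (g (a r) + g (b r)) with h1 | h1
      · exact absurd h1 hr
      · exact h1
    have hex : ∃ e ∈ D, r = rep a b e := by
      by_contra hno
      push Not at hno
      apply hr
      rw [hg]
      exact Finset.sum_eq_zero (fun e he => if_neg (hno e he))
    obtain ⟨e0, he0, hre0⟩ := hex
    have hrX : r ∈ X := hre0 ▸ hrepX e0 (hDX e0 he0)
    have hrr : rep a b r = r := by rw [hre0, rep_rep]
    refine hdel (X.filter (fun h => rep a b h ≠ r)) (Finset.filter_subset _ _) ?_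
      (univ.filter (fun w => g w = 1)) ?_
    · intro e he f hef
      rw [Finset.mem_filter] at he ⊢
      refine ⟨hX e he.1 f hef, ?_⟩
      rw [← rep_eq_of_tc hef]
      exact he.2
    · unfold cn
      rw [Finset.card_eq_one]
      refine ⟨r, ?_⟩
      ext h
      have hcr : (¬ (a h ∈ univ.filter (fun w => g w = 1) ↔ b h ∈ univ.filter (fun w => g w = 1))) ↔
          g (a h) + g (b h) = 1 := by
        simp only [Finset.mem_filter, Finset.mem_univ, true_and]
        exact Pool.Agent.H126R2.NC.f2_ne
      rw [Finset.mem_filter, Finset.mem_singleton, hcr]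
      constructor
      · rintro ⟨h1, h2⟩
        rw [Finset.mem_sdiff, Finset.mem_filter] at h1
        have hex : ∃ e ∈ D, h = rep a b e := by
          by_contra hno
          push Not at hno
          rw [hg, Finset.sum_eq_zero (fun e he => if_neg (hno e he))] at h2
          exact zero_ne_one h2
        obtain ⟨e1, he1, hhe1⟩ := hex
        have hhX : h ∈ X := hhe1 ▸ hrepX e1 (hDX e1 he1)
        have hhr : rep a b h = r := by
          by_contra h3
          exact h1.2 ⟨hhX, h3⟩
        rw [← hhr, hhe1, rep_rep]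
      · rintro rfl
        refine ⟨?_, hr1⟩
        rw [Finset.mem_sdiff, Finset.mem_filter]
        exact ⟨Finset.mem_univ _, fun h => h.2 hrr⟩
  have h1 : ∑ e ∈ F, (c (a e) + c (b e)) = ∑ e ∈ D.filter (fun e => e ∈ F), (1 : F2) := by
    rw [Finset.sum_congr rfl (fun e _ => hdc e), Finset.sum_ite_mem, Finset.sum_filter,
      Finset.sum_ite_mem, Finset.inter_comm]
  have h2 : ∑ e ∈ D.filter (fun e => e ∈ F), (1 : F2) =
      ∑ r : E, ∑ e ∈ D.filter (fun e => e ∈ F), (if r = rep a b e then (1 : F2) else 0) := by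
    rw [Finset.sum_comm]
    apply Finset.sum_congr rfl
    intro e _
    rw [Finset.sum_ite_eq']
    simp
  rw [h1, h2]
  apply Finset.sum_eq_zero
  intro r _
  by_cases hrF : r ∈ F
  · refine Eq.trans ?_ (hg0 r)
    rw [hg r, Finset.sum_filter]
    apply Finset.sum_congr rfl
    intro e _
    by_cases he : r = rep a b e
    · have heF : e ∈ F := hF r hrF e (he ▸ rep_tc a b e)
      rw [if_pos heF]
    · rw [if_neg he]
      simp
  · apply Finset.sum_eq_zero
    intro e he
    rw [Finset.mem_filter] at he
    rw [if_neg]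
    intro h3
    exact hrF (h3 ▸ hF e he.2 _ (rep_tc a b e).symm)

/-- an eight-flow of the graph without `X`, zero on `X` -/
lemma exists_flow8_minus (a b : E → W) (X : Finset E)
    (hX : ∀ B : Finset W, cn a b (univ \ X) B ≠ 1) :
    ∃ A : Fin 3 → E → F2, (∀ i, IsFlow a b (A i)) ∧ (∀ i, ∀ e ∈ X, A i e = 0) ∧
      ∀ e, e ∉ X → (A 0 e ≠ 0 ∨ A 1 e ≠ 0 ∨ A 2 e ≠ 0) := by
  classical
  let b' : E → W := fun e => if e ∈ X then a e else b e
  obtain ⟨ψ, hnz, hψ⟩ := exists_flow8 _ a b' rfl (by
    intro B
    have h1 : cn a b' univ B = cn a b (univ \ X) B := by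
      unfold cn
      congr 1
      ext e
      simp only [Finset.mem_filter, Finset.mem_univ, true_and, Finset.mem_sdiff, b']
      by_cases h : e ∈ X
      · simp [h]
      · simp [h]
    rw [h1]
    exact hX B)
  refine ⟨fun i e => if e ∈ X then 0 else ψ i e, fun i c => ?_, fun i e he => if_pos he, ?_⟩
  · refine Eq.trans ?_ (hψ i c)
    apply Finset.sum_congr rfl
    intro e _
    by_cases h : e ∈ X
    · simp only [b', h, if_true]
      rw [f2_add_self, mul_zero, zero_mul]
    · simp only [b', h, if_false]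
  · intro e he
    simp only [he, if_false]
    exact hnz e

lemma count4 : ∀ x y z w : F2, (x ≠ 0 ∨ y ≠ 0 ∨ z ≠ 0) →
    ((univ : Finset (F2 × F2 × F2)).filter
      (fun t => t.1 * x + t.2.1 * y + t.2.2 * z + w = 1)).card = 4 := by
  decide +kernel

lemma count8 : ∀ w : F2, ((univ : Finset (F2 × F2 × F2)).filter
      (fun t => t.1 * 0 + t.2.1 * 0 + t.2.2 * 0 + w = 1)).card = if w = 1 then 8 else 0 := by
  decide +kernel

end flows

section graph

variable {V E : Type} [Fintype V] [DecidableEq V] [Fintype E] [DecidableEq E]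

lemma isEven_of_isFlow (G : MGraph V E) (v : E × Bool → V)
    (hv : ∀ e, G.ends e = s(v (e, false), v (e, true))) (x : E → F2)
    (hx : IsFlow (fun e => v (e, false)) (fun e => v (e, true)) x) :
    G.IsEven (univ.filter (fun e => x e = 1)) := by
  rw [G.isEven_iff v hv, isFl_iff]
  have h1 : (fun e => if e ∈ univ.filter (fun e => x e = 1) then (1 : F2) else 0) = x := by
    ext e
    rcases f2_cases (x e) with h | h <;> simp [h]
  rw [h1]
  exact hx

/-- the block cover -/
theorem block (G : MGraph V E) (v : E × Bool → V)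
    (hv : ∀ e, G.ends e = s(v (e, false), v (e, true))) (X F : Finset E)
    (hX : ∀ e ∈ X, ∀ f, TC (fun e => v (e, false)) (fun e => v (e, true)) e f → f ∈ X)
    (hF : ∀ e ∈ F, ∀ f, TC (fun e => v (e, false)) (fun e => v (e, true)) e f → f ∈ F)
    (hdel : ∀ X' ⊆ X,
      (∀ e ∈ X', ∀ f, TC (fun e => v (e, false)) (fun e => v (e, true)) e f → f ∈ X') →
      ∀ B : Finset V, cn (fun e => v (e, false)) (fun e => v (e, true)) (univ \ X') B ≠ 1) :
    ∃ S : Multiset (Finset E), (∀ C ∈ S, G.IsCircuit C) ∧
      ∀ e, S.countP (fun C => e ∈ C) = if e ∈ X then (if e ∈ F then 8 else 0) else 4 := by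
  classical
  obtain ⟨A, hA, hA0, hAn⟩ := exists_flow8_minus (fun e => v (e, false)) (fun e => v (e, true)) X
    (hdel X (Finset.Subset.refl X) hX)
  obtain ⟨Z, hZ, hZF⟩ := exists_flow_on (fun e => v (e, false)) (fun e => v (e, true)) X F
    (cut_even _ _ X F hX hF hdel)
  let y : F2 × F2 × F2 → E → F2 := fun t e =>
    t.1 * A 0 e + t.2.1 * A 1 e + t.2.2 * A 2 e + Z e
  have hy : ∀ t, IsFlow (fun e => v (e, false)) (fun e => v (e, true)) (y t) := fun t =>
    isFlow_add (isFlow_add (isFlow_add (isFlow_smul _ (hA 0)) (isFlow_smul _ (hA 1)))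
      (isFlow_smul _ (hA 2))) hZ
  choose S hS1 hS2 using fun t => G.decompose _ _ rfl (isEven_of_isFlow G v hv (y t) (hy t))
  refine ⟨∑ t, S t, ?_, ?_⟩
  · intro C hC
    rw [Multiset.mem_sum] at hC
    obtain ⟨t, _, ht⟩ := hC
    exact hS1 t C ht
  · intro e
    rw [countP_sum]
    have h1 : ∀ t ∈ (univ : Finset (F2 × F2 × F2)), (S t).countP (fun C => e ∈ C) =
        if y t e = 1 then 1 else 0 := by
      intro t _
      rw [hS2 t e]
      simp
    rw [Finset.sum_congr rfl h1, ← Finset.card_filter]
    by_cases heX : e ∈ X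
    · rw [if_pos heX]
      simp only [y, hA0 _ e heX]
      rw [count8, hZF e heX]
      by_cases heF : e ∈ F <;> simp [heF]
    · rw [if_neg heX]
      exact count4 _ _ _ _ (hAn e heX)

end graph

end Pool.Agent.TH399.CC
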