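import Pool.Agent.H44.L.TH399_CC_Block

set_option autoImplicit false
set_option linter.unusedSectionVars false

/-!
Circuit covers of weightings whose values differ by a factor of at most about `5 / 4`.
-/

namespace Pool.Agent.TH399.CC

open Finset
open Pool.Agent.Helper879.ECD (F2 IsFlow f2_add_self f2_cases cn)
open Pool.Agent.H126R2.CDC (MGraph isFl_iff)
open Pool.Agent.H126R2.NC (TC rep InCone InLat InIntCone cone_lat_of_intCone cover_minus
  bridgeless_of_cone const_of_tc countP_sum nine_colouring_bridgeless)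

variable {V E : Type} [Fintype V] [DecidableEq V] [Fintype E] [DecidableEq E]

lemma intCone_add (G : MGraph V E) {p q r : E → ℕ} (hp : InIntCone G p) (hq : InIntCone G q)
    (h : ∀ e, r e = p e + q e) : InIntCone G r := by
  obtain ⟨S, hS1, hS2⟩ := hp
  obtain ⟨T, hT1, hT2⟩ := hq
  refine ⟨S + T, ?_, ?_⟩
  · intro C hC
    rcases Multiset.mem_add.1 hC with h1 | h1
    · exact hS1 C h1
    · exact hT1 C h1
  · intro e
    rw [Multiset.countP_add, hS2, hT2, h]

lemma intCone_sum (G : MGraph V E) {ι : Type} [DecidableEq ι] (s : Finset ι) (p : ι → E → ℕ)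
    (hp : ∀ i ∈ s, InIntCone G (p i)) : InIntCone G (fun e => ∑ i ∈ s, p i e) := by
  induction s using Finset.induction_on with
  | empty => exact ⟨0, by simp, fun e => by simp⟩
  | insert i s hi ih =>
    refine intCone_add G (hp i (Finset.mem_insert_self i s))
      (ih (fun j hj => hp j (Finset.mem_insert_of_mem hj))) ?_
    intro e
    exact Finset.sum_insert hi

/-- the odd part of a weighting in the lattice -/
lemma odd_part (G : MGraph V E) (p : E → ℕ) (hp : InLat G p) :
    InIntCone G (fun e => p e % 2) := by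
  classical
  obtain ⟨v, hv⟩ := G.exists_halves
  have h1 : ∀ x : E → ℤ, x ∈ AddSubgroup.closure
      {x : E → ℤ | ∃ C, G.IsCircuit C ∧ x = fun e => if e ∈ C then 1 else 0} →
      IsFlow (fun e => v (e, false)) (fun e => v (e, true)) (fun e => ((x e : ℤ) : F2)) := by
    intro x hx
    induction hx using AddSubgroup.closure_induction with
    | mem x hx =>
      obtain ⟨C, hC, rfl⟩ := hx
      have h2 := (isFl_iff v _).1 ((G.isEven_iff v hv C).1 hC.isEven)
      have h3 : (fun e => (((if e ∈ C then (1 : ℤ) else 0) : ℤ) : F2)) =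
          (fun e => if e ∈ C then (1 : F2) else 0) := by
        ext e
        by_cases h : e ∈ C <;> simp [h]
      show IsFlow _ _ (fun e => (((if e ∈ C then (1 : ℤ) else 0) : ℤ) : F2))
      rw [h3]
      exact h2
    | zero => intro c; simp
    | add x y _ _ hx hy =>
      have h2 := isFlow_add hx hy
      have h3 : (fun e => (((x + y) e : ℤ) : F2)) = (fun e => ((x e : ℤ) : F2) + ((y e : ℤ) : F2)) := by
        ext e; simp
      rw [h3]
      exact h2
    | neg x _ hx =>
      have h3 : (fun e => (((-x) e : ℤ) : F2)) = (fun e => ((x e : ℤ) : F2)) := by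
        ext e
        rw [Pi.neg_apply, Int.cast_neg]
        rcases f2_cases ((x e : ℤ) : F2) with h | h
        · rw [h, neg_zero]
        · rw [h]; decide
      rw [h3]
      exact hx
  have h2 := isEven_of_isFlow G v hv _ (h1 _ hp)
  obtain ⟨S, hS1, hS2⟩ := G.decompose _ _ rfl h2
  refine ⟨S, hS1, fun e => ?_⟩
  rw [hS2 e]
  have h3 : (e ∈ univ.filter (fun e => (((p e : ℕ) : ℤ) : F2) = 1)) ↔ p e % 2 = 1 := by
    rw [Finset.mem_filter]
    have h4 : (((p e : ℕ) : ℤ) : F2) = ((p e : ℕ) : F2) := by push_cast; rfl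
    rw [h4]
    constructor
    · rintro ⟨_, h5⟩
      have h6 : ((p e : ℕ) : F2) = ((1 : ℕ) : F2) := by rw [h5]; rfl
      exact (ZMod.natCast_eq_natCast_iff' _ _ _).1 h6
    · intro h5
      refine ⟨Finset.mem_univ _, ?_⟩
      have h6 : ((p e : ℕ) : F2) = ((1 : ℕ) : F2) := (ZMod.natCast_eq_natCast_iff' _ _ _).2 h5
      rw [h6]; rfl
  by_cases h5 : p e % 2 = 1
  · rw [if_pos (h3.2 h5)]
    exact h5.symm
  · rw [if_neg (fun h => h5 (h3.1 h))]
    show 0 = p e % 2
    omega

/-- the main construction, for even weights `2 q` -/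
theorem cover_even (G : MGraph V E) (hbr : G.Bridgeless) (v : E × Bool → V)
    (hv : ∀ e, G.ends e = s(v (e, false), v (e, true))) (q : E → ℕ)
    (htc : ∀ e f, TC (fun e => v (e, false)) (fun e => v (e, true)) e f → q e = q f)
    (hr : ∀ e f, 4 * q e + 24 ≤ 5 * q f) : InIntCone G (fun e => 2 * q e) := by
  classical
  by_cases hE : IsEmpty E
  · exact ⟨0, by simp, fun e => (hE.false e).elim⟩
  rw [not_isEmpty_iff] at hE
  obtain ⟨col, hcol1, hcol2⟩ := nine_colouring_bridgeless (fun e => v (e, false))
    (fun e => v (e, true)) (G.no_one_cut hbr v hv)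
  obtain ⟨e0, -, he0⟩ := Finset.exists_max_image (univ : Finset E) q (Finset.univ_nonempty)
  obtain ⟨e1, -, he1⟩ := Finset.exists_min_image (univ : Finset E) q (Finset.univ_nonempty)
  set M := q e0 with hM
  set μ := q e1 with hμ
  have hle0 : ∀ e, q e ≤ M := fun e => he0 e (Finset.mem_univ _)
  have hle1 : ∀ e, μ ≤ q e := fun e => he1 e (Finset.mem_univ _)
  have hMμ : 4 * M + 24 ≤ 5 * μ := hr e0 e1
  have hμM : μ ≤ M := hle0 e1
  obtain ⟨r, c, hc, hrc⟩ : ∃ r c : ℕ, c < 16 ∧ μ = 16 * r + 24 + c :=
    ⟨(μ - 24) / 16, (μ - 24) % 16, Nat.mod_lt _ (by norm_num), by omega⟩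
  let u : E → ℕ := fun e => (q e - μ) / 4
  let w : E → ℕ := fun e => (q e - μ) % 4
  have hu : ∀ e, u e ≤ r := by
    intro e
    have h1 := hle0 e
    have h2 := hle1 e
    show (q e - μ) / 4 ≤ r
    omega
  have hw : ∀ e, w e ≤ 3 := fun e => by
    show (q e - μ) % 4 ≤ 3
    omega
  have hq : ∀ e, q e = μ + 4 * u e + w e := by
    intro e
    have h2 := hle1 e
    show q e = μ + 4 * ((q e - μ) / 4) + (q e - μ) % 4
    omega
  have hutc : ∀ e f, TC (fun e => v (e, false)) (fun e => v (e, true)) e f → u e = u f := by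
    intro e f h
    show (q e - μ) / 4 = (q f - μ) / 4
    rw [htc e f h]
  have hwtc : ∀ e f, TC (fun e => v (e, false)) (fun e => v (e, true)) e f → w e = w f := by
    intro e f h
    show (q e - μ) % 4 = (q f - μ) % 4
    rw [htc e f h]
  -- the rounds with eight shifted even sets
  have hA : ∀ (t : ℕ) (γ : Fin 3 × Fin 3), InIntCone G (fun e =>
      if col e = γ then (if t < u e then 8 else 0) else 4) := by
    intro t γ
    obtain ⟨S, hS1, hS2⟩ := block G v hv (univ.filter (fun e => col e = γ))
      (univ.filter (fun e => t < u e)) (by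
        intro e he f hef
        rw [Finset.mem_filter] at he ⊢
        exact ⟨Finset.mem_univ _, by rw [← hcol1 e f hef]; exact he.2⟩) (by
        intro e he f hef
        rw [Finset.mem_filter] at he ⊢
        exact ⟨Finset.mem_univ _, by rw [← hutc e f hef]; exact he.2⟩) (by
        intro X' hX' hcl B
        refine hcol2 X' γ ?_ hcl B
        intro e he
        exact (Finset.mem_filter.1 (hX' he)).2)
    refine ⟨S, hS1, fun e => ?_⟩
    rw [hS2 e]
    simp only [Finset.mem_filter, Finset.mem_univ, true_and]
  -- the rounds with double covers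
  have hB : ∀ (t : ℕ) (γ : Fin 3 × Fin 3), InIntCone G (fun e =>
      if col e = γ then (if t < w e then 2 else 0) else 2) := by
    intro t γ
    obtain ⟨S, hS1, hS2⟩ := cover_minus G v hv
      (univ.filter (fun e => col e = γ ∧ ¬ t < w e)) (by
        apply hcol2 _ γ
        · intro e he
          exact (Finset.mem_filter.1 he).2.1
        · intro e he f hef
          rw [Finset.mem_filter] at he ⊢
          refine ⟨Finset.mem_univ _, ?_, ?_⟩
          · rw [← hcol1 e f hef]; exact he.2.1
          · rw [← hwtc e f hef]; exact he.2.2)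
    refine ⟨S, hS1, fun e => ?_⟩
    rw [hS2 e]
    simp only [Finset.mem_filter, Finset.mem_univ, true_and]
    by_cases h1 : col e = γ
    · by_cases h2 : t < w e <;> simp [h1, h2]
    · simp [h1]
  have hC : InIntCone G (fun _ => 2 * c) := by
    obtain ⟨S, hS1, hS2⟩ := G.exists_cdc hbr
    refine ⟨c • S, fun C hC => hS1 C (Multiset.mem_of_mem_nsmul hC), fun e => ?_⟩
    rw [Multiset.countP_nsmul, hS2 e]
    ring
  have hsumA : ∀ t e, ∑ γ : Fin 3 × Fin 3, (if col e = γ then (if t < u e then 8 else 0) else 4) =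
      32 + (if t < u e then 8 else 0) := by
    intro t e
    have h1 : ∀ γ ∈ (univ : Finset (Fin 3 × Fin 3)),
        (if col e = γ then (if t < u e then 8 else 0) else 4) + (if col e = γ then 4 else 0) =
        4 + (if col e = γ then (if t < u e then 8 else 0) else 0) := by
      intro γ _
      by_cases h : col e = γ <;> simp [h, add_comm]
    have h2 := Finset.sum_congr rfl h1
    rw [Finset.sum_add_distrib, Finset.sum_add_distrib, Finset.sum_ite_eq, Finset.sum_ite_eq] at h2
    simp only [Finset.mem_univ, if_true, Finset.sum_const, Finset.card_univ, Fintype.card_prod,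
      Fintype.card_fin, smul_eq_mul] at h2
    omega
  have hsumB : ∀ t e, ∑ γ : Fin 3 × Fin 3, (if col e = γ then (if t < w e then 2 else 0) else 2) =
      16 + (if t < w e then 2 else 0) := by
    intro t e
    have h1 : ∀ γ ∈ (univ : Finset (Fin 3 × Fin 3)),
        (if col e = γ then (if t < w e then 2 else 0) else 2) + (if col e = γ then 2 else 0) =
        2 + (if col e = γ then (if t < w e then 2 else 0) else 0) := by
      intro γ _
      by_cases h : col e = γ <;> simp [h, add_comm]
    have h2 := Finset.sum_congr rfl h1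
    rw [Finset.sum_add_distrib, Finset.sum_add_distrib, Finset.sum_ite_eq, Finset.sum_ite_eq] at h2
    simp only [Finset.mem_univ, if_true, Finset.sum_const, Finset.card_univ, Fintype.card_prod,
      Fintype.card_fin, smul_eq_mul] at h2
    omega
  have hcnt : ∀ (n m k : ℕ), k ≤ n → ∑ t ∈ Finset.range n, (if t < k then m else 0) = m * k := by
    intro n m k hk
    rw [← Finset.sum_filter, Finset.sum_const, smul_eq_mul, mul_comm]
    congr 1
    have h7 : (Finset.range n).filter (fun t => t < k) = Finset.range k := by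
      ext t
      rw [Finset.mem_filter, Finset.mem_range, Finset.mem_range]
      omega
    rw [h7, Finset.card_range]
  have hA' := intCone_sum G (Finset.range r) _ (fun t _ =>
    intCone_sum G (univ : Finset (Fin 3 × Fin 3)) _ (fun γ _ => hA t γ))
  have hB' := intCone_sum G (Finset.range 3) _ (fun t _ =>
    intCone_sum G (univ : Finset (Fin 3 × Fin 3)) _ (fun γ _ => hB t γ))
  refine intCone_add G (intCone_add G hA' hB' (fun e => rfl)) hC ?_
  intro e
  show 2 * q e = ∑ t ∈ Finset.range r, ∑ γ : Fin 3 × Fin 3,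
      (if col e = γ then (if t < u e then 8 else 0) else 4) +
    ∑ t ∈ Finset.range 3, ∑ γ : Fin 3 × Fin 3,
      (if col e = γ then (if t < w e then 2 else 0) else 2) + 2 * c
  rw [Finset.sum_congr rfl (fun t _ => hsumA t e), Finset.sum_congr rfl (fun t _ => hsumB t e),
    Finset.sum_add_distrib, Finset.sum_add_distrib, hcnt r 8 (u e) (hu e), hcnt 3 2 (w e) (hw e),
    Finset.sum_const, Finset.sum_const, Finset.card_range, Finset.card_range]
  simp only [smul_eq_mul]
  have h1 := hq e
  omega

/-- circuit covers for weights within a factor of about `5 / 4` -/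
theorem five_quarters (G : MGraph V E) (p : E → ℕ) (hr : ∀ e f, 4 * p e + 52 ≤ 5 * p f) :
    InIntCone G p ↔ InCone G p ∧ InLat G p := by
  refine ⟨cone_lat_of_intCone G p, ?_⟩
  rintro ⟨h1, h2⟩
  obtain ⟨v, hv⟩ := G.exists_halves
  have hpos : ∀ e, 0 < p e := fun e => by
    have := hr e e
    omega
  have hbr := bridgeless_of_cone G p h1 hpos
  have h3 := cover_even G hbr v hv (fun e => p e / 2)
    (fun e f hef => by
      show p e / 2 = p f / 2
      rw [const_of_tc G v hv p h1 hef])
    (fun e f => by
      have := hr e f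
      show 4 * (p e / 2) + 24 ≤ 5 * (p f / 2)
      omega)
  exact intCone_add G h3 (odd_part G p h2) (fun e => (Nat.div_add_mod (p e) 2).symm)

end Pool.Agent.TH399.CC
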